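import Pool.Agent.H43.TC.EPot

set_option autoImplicit false

/-
[H27 TC ERGP]  Greedy embedding with regions, classes and a potential.

P: vertices to be placed, in increasing order of rk (injective on P). Con: the vertices t of P with a
parent constraint (par t in P comes earlier, and phi t must be adjacent to phi (par t)). Reg t: the
region of t; regions of different classes are disjoint. PC: vertices whose position is chosen by the
potential (their regions lie in the near-clique Q).

Proof. Induction on the number of placed vertices: for an initial segment P_s (closed downwards in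
rk) of P there is phi, injective on P_s, phi t in Reg t, adjacent along Con, and
   sum_{rho in Q} wt rho * d^(2 * good(rho)) <= d^(Lam) * sum_{rho in Q} wt rho,         (*)
where d = lm/(lm+3) (real), good(rho) = sum of lam t over placed t in PC with Adj (phi t) rho, and
Lam = sum of lam t over placed t in PC.
Step: t the next vertex. Used positions inside Reg t come only from earlier vertices of the same
class (regions of other classes are disjoint from Reg t, and phi t' in Reg t'). So
 Y = {x in Reg t : (t in Con -> Adj (phi (par t)) x), x not used} has at least 32 m elements if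
 t in PC, at least 1 otherwise (h1 with y = phi (par t) in Reg (par t); h2).
 If t is not in PC: pick any x in Y; (*) is unchanged.
 If t in PC: Y is a subset of Reg t, hence of Q; for rho in Q the number of y in Y not adjacent to
 rho is <= m (hQ, symmetric adjacency), and 32 m <= |Y|. Apply pot_step with
 f rho = wt rho * d^(2 good(rho)), u = d^(lam t). u <= 1; u >= d^lm >= exp(-3) >= 1/31 because
 (1 + 3/lm)^lm <= exp 3 <= 31 (Real.add_one_le_exp; exp 1 < 2.7182818286, 2.7183^3 < 20.1).
 If lam t = 0 then u = 1 fine.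
End: (*) for P. If good(rho) <= g0 then d^(2 good) >= d^(2 g0). So with B = sum of wt over
 {rho in Q : good(rho) <= g0}: B * d^(2 g0) <= d^(Lam) * W. If Lam <= 2 g0 the exponent
 (Lam - 2 g0)/lm = 0 and the claim B <= W is trivial. Otherwise B <= d^(Lam - 2 g0) W
 <= d^(lm * N) W with N = (Lam - 2 g0)/lm, and d^lm <= 1/4 since (1 + 3/lm)^lm >= 1 + 3 (Bernoulli).
 So B * 4^N <= W (cast to naturals).
-/

namespace Pool.Agent.H43.TC

open Finset Classical

variable {V α : Type*}

/-- The potential factor. -/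
noncomputable def pot (G : SimpleGraph V) (lam : α → ℕ) (d : ℝ) (φ : α → V) (A : Finset α)
    (ρ : V) : ℝ :=
  ∏ t ∈ A, (if G.Adj (φ t) ρ then (d ^ lam t) ^ 2 else 1)

lemma pot_congr (G : SimpleGraph V) (lam : α → ℕ) (d : ℝ) (φ φ' : α → V) (A : Finset α)
    (ρ : V) (h : ∀ t ∈ A, φ t = φ' t) : pot G lam d φ A ρ = pot G lam d φ' A ρ := by
  unfold pot
  apply prod_congr rfl
  intro t ht
  rw [h t ht]

lemma pot_nonneg (G : SimpleGraph V) (lam : α → ℕ) (d : ℝ) (_hd : 0 ≤ d) (φ : α → V)
    (A : Finset α) (ρ : V) : 0 ≤ pot G lam d φ A ρ := by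
  unfold pot
  apply prod_nonneg
  intro t _
  split_ifs <;> positivity

lemma pot_eq (G : SimpleGraph V) (lam : α → ℕ) (d : ℝ) (φ : α → V) (A : Finset α) (ρ : V) :
    pot G lam d φ A ρ = d ^ (2 * ∑ t ∈ A.filter (fun t => G.Adj (φ t) ρ), lam t) := by
  unfold pot
  rw [prod_ite, prod_const_one, mul_one, mul_sum, ← prod_pow_eq_pow_sum]
  apply prod_congr rfl
  intro t _
  rw [← pow_mul, mul_comm]

lemma rgp_aux (G : SimpleGraph V) [Nonempty V] (P : Finset α) (rk : α → ℕ)
    (hrk : Set.InjOn rk (P : Set α)) (par : α → α) (Con : Finset α)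
    (hCon : ∀ t ∈ Con, t ∈ P ∧ par t ∈ P ∧ rk (par t) < rk t)
    (Reg : α → Finset V) (cl : α → ℕ)
    (hdisj : ∀ t ∈ P, ∀ t' ∈ P, cl t ≠ cl t' → Disjoint (Reg t) (Reg t'))
    (PC : Finset α) (hPC : PC ⊆ P) (Q : Finset V) (m : ℕ) (hm : 1 ≤ m) (hQ : Near G Q m)
    (hPCQ : ∀ t ∈ PC, Reg t ⊆ Q)
    (h1 : ∀ t ∈ Con, ∀ y ∈ Reg (par t),
      (P.filter (fun t' => rk t' < rk t ∧ cl t' = cl t)).card + (if t ∈ PC then 32 * m else 1) ≤
        ((Reg t).filter (fun x => G.Adj y x)).card)
    (h2 : ∀ t ∈ P, t ∉ Con →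
      (P.filter (fun t' => rk t' < rk t ∧ cl t' = cl t)).card + (if t ∈ PC then 32 * m else 1) ≤
        (Reg t).card)
    (lam : α → ℕ) (wt : V → ℕ) (d : ℝ) (hd0 : 0 < d) (hd1 : d ≤ 1)
    (hd31 : ∀ t ∈ PC, 1 / 31 ≤ d ^ lam t) (n : ℕ) :
    ∃ φ : α → V, (∀ s ∈ P, ∀ t ∈ P, rk s < n → rk t < n → φ s = φ t → s = t) ∧
      (∀ t ∈ P, rk t < n → φ t ∈ Reg t) ∧
      (∀ t ∈ Con, rk t < n → G.Adj (φ (par t)) (φ t)) ∧
      ∑ ρ ∈ Q, (wt ρ : ℝ) * pot G lam d φ (PC.filter (fun t => rk t < n)) ρ ≤
        (∏ t ∈ PC.filter (fun t => rk t < n), d ^ lam t) * ∑ ρ ∈ Q, (wt ρ : ℝ) := by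
  induction n with
  | zero =>
    refine ⟨fun _ => Classical.arbitrary V, by simp, by simp, by simp, ?_⟩
    simp [pot]
  | succ n ih =>
    obtain ⟨φ, i1, i2, i3, i4⟩ := ih
    by_cases hex : ∃ t0 ∈ P, rk t0 = n
    · obtain ⟨t0, ht0, hrt0⟩ := hex
      set U : Finset V := (P.filter (fun t' => rk t' < rk t0 ∧ cl t' = cl t0)).image φ with hU
      have hUc : U.card ≤ (P.filter (fun t' => rk t' < rk t0 ∧ cl t' = cl t0)).card :=
        card_image_le
      obtain ⟨base, hb1, hb2, hb3⟩ : ∃ base : Finset V, base ⊆ Reg t0 ∧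
          (t0 ∈ Con → ∀ y ∈ base, G.Adj (φ (par t0)) y) ∧
          (P.filter (fun t' => rk t' < rk t0 ∧ cl t' = cl t0)).card +
            (if t0 ∈ PC then 32 * m else 1) ≤ base.card := by
        by_cases hc : t0 ∈ Con
        · obtain ⟨-, c2, c3⟩ := hCon t0 hc
          refine ⟨(Reg t0).filter (fun x => G.Adj (φ (par t0)) x), filter_subset _ _, ?_, ?_⟩
          · intro _ y hy
            exact (mem_filter.mp hy).2
          · exact h1 t0 hc (φ (par t0)) (i2 _ c2 (by omega))
        · exact ⟨Reg t0, subset_refl _, fun h => absurd h hc, h2 t0 ht0 hc⟩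
      set Y : Finset V := base \ U with hY
      have hYc : (if t0 ∈ PC then 32 * m else 1) ≤ Y.card := by
        have e1 : base.card - U.card ≤ Y.card := le_card_sdiff _ _
        omega
      have hYne : Y.Nonempty := by
        apply card_pos.mp
        split_ifs at hYc <;> omega
      -- properties of the candidates
      have hYreg : ∀ y ∈ Y, y ∈ Reg t0 := fun y hy => hb1 (mem_sdiff.mp hy).1
      have hYnew : ∀ y ∈ Y, ∀ t ∈ P, rk t < n → φ t ≠ y := by
        intro y hy t ht htn hφ
        rw [hY, mem_sdiff] at hy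
        by_cases hcl : cl t = cl t0
        · apply hy.2
          rw [hU, mem_image]
          exact ⟨t, mem_filter.mpr ⟨ht, by omega, hcl⟩, hφ⟩
        · have h3 := hdisj t ht t0 ht0 hcl
          rw [disjoint_left] at h3
          exact h3 (i2 t ht htn) (hφ ▸ hb1 hy.1)
      -- choose the position
      obtain ⟨y, hyY, hypot⟩ : ∃ y ∈ Y, t0 ∈ PC →
          ∑ ρ ∈ Q, ((wt ρ : ℝ) * pot G lam d φ (PC.filter (fun t => rk t < n)) ρ) *
            (if G.Adj y ρ then (d ^ lam t0) ^ 2 else 1) ≤
          d ^ lam t0 * ∑ ρ ∈ Q, ((wt ρ : ℝ) * pot G lam d φ (PC.filter (fun t => rk t < n)) ρ) := by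
        by_cases hPt : t0 ∈ PC
        · obtain ⟨y, hy, hy'⟩ := pot_step G Y Q
            (fun ρ => (wt ρ : ℝ) * pot G lam d φ (PC.filter (fun t => rk t < n)) ρ)
            (fun ρ _ => mul_nonneg (Nat.cast_nonneg _) (pot_nonneg G lam d hd0.le φ _ ρ))
            (d ^ lam t0) (hd31 t0 hPt) (pow_le_one₀ hd0.le hd1) hYne (by
              intro ρ hρ
              rw [if_pos hPt] at hYc
              refine le_trans (Nat.mul_le_mul_left 32 ?_) hYc
              refine le_trans (card_le_card ?_) (hQ ρ hρ)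
              intro y hy
              rw [mem_filter] at hy ⊢
              exact ⟨hPCQ t0 hPt (hYreg y hy.1), fun h => hy.2 h.symm⟩)
          exact ⟨y, hy, fun _ => hy'⟩
        · obtain ⟨y, hy⟩ := hYne
          exact ⟨y, hy, fun h => absurd h hPt⟩
      have hne : ∀ t, rk t < n → t ≠ t0 := by
        intro t ht h
        rw [h] at ht
        omega
      have hupd : ∀ t, rk t < n → Function.update φ t0 y t = φ t := by
        intro t ht
        exact Function.update_of_ne (hne t ht) _ _
      have hupd0 : Function.update φ t0 y t0 = y := Function.update_self _ _ _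
      have hcases : ∀ t ∈ P, rk t < n + 1 → rk t < n ∨ t = t0 := by
        intro t ht h
        rcases Nat.lt_succ_iff_lt_or_eq.mp h with h' | h'
        · left; exact h'
        · right
          exact hrk ht ht0 (h'.trans hrt0.symm)
      refine ⟨Function.update φ t0 y, ?_, ?_, ?_, ?_⟩
      · intro s hs t ht hs' ht' hst
        rcases hcases s hs hs' with h | h <;> rcases hcases t ht ht' with h' | h'
        · rw [hupd s h, hupd t h'] at hst
          exact i1 s hs t ht h h' hst
        · rw [hupd s h, h', hupd0] at hst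
          exact absurd hst (hYnew y hyY s hs h)
        · rw [h, hupd0, hupd t h'] at hst
          exact absurd hst.symm (hYnew y hyY t ht h')
        · rw [h, h']
      · intro t ht ht'
        rcases hcases t ht ht' with h | h
        · rw [hupd t h]
          exact i2 t ht h
        · rw [h, hupd0]
          exact hYreg y hyY
      · intro t ht ht'
        obtain ⟨c1, c2, c3⟩ := hCon t ht
        rcases hcases t c1 ht' with h | h
        · rw [hupd t h, hupd (par t) (by omega)]
          exact i3 t ht h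
        · subst h
          rw [hupd0, hupd (par t) (by omega)]
          exact hb2 ht y (mem_sdiff.mp hyY).1
      · by_cases hPt : t0 ∈ PC
        · have e1 : PC.filter (fun t => rk t < n + 1) = insert t0 (PC.filter (fun t => rk t < n)) := by
            ext t
            rw [mem_filter, mem_insert, mem_filter]
            constructor
            · rintro ⟨g1, g2⟩
              rcases hcases t (hPC g1) g2 with h | h
              · right; exact ⟨g1, h⟩
              · left; exact h
            · rintro (g | g)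
              · rw [g]
                exact ⟨hPt, by omega⟩
              · exact ⟨g.1, by omega⟩
          have e2 : t0 ∉ PC.filter (fun t => rk t < n) := by
            rw [mem_filter, hrt0]
            rintro ⟨-, g⟩
            exact lt_irrefl _ g
          have e3 : ∀ ρ, pot G lam d (Function.update φ t0 y)
              (insert t0 (PC.filter (fun t => rk t < n))) ρ =
              pot G lam d φ (PC.filter (fun t => rk t < n)) ρ *
                (if G.Adj y ρ then (d ^ lam t0) ^ 2 else 1) := by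
            intro ρ
            unfold pot
            rw [prod_insert e2, hupd0, mul_comm]
            congr 1
            apply prod_congr rfl
            intro t ht
            rw [hupd t (mem_filter.mp ht).2]
          rw [e1, prod_insert e2]
          simp only [e3]
          calc ∑ ρ ∈ Q, (wt ρ : ℝ) * (pot G lam d φ (PC.filter (fun t => rk t < n)) ρ *
                (if G.Adj y ρ then (d ^ lam t0) ^ 2 else 1))
              = ∑ ρ ∈ Q, ((wt ρ : ℝ) * pot G lam d φ (PC.filter (fun t => rk t < n)) ρ) *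
                (if G.Adj y ρ then (d ^ lam t0) ^ 2 else 1) := by
                apply sum_congr rfl
                intro ρ _
                ring
            _ ≤ d ^ lam t0 * ∑ ρ ∈ Q, ((wt ρ : ℝ) *
                pot G lam d φ (PC.filter (fun t => rk t < n)) ρ) := hypot hPt
            _ ≤ d ^ lam t0 * ((∏ t ∈ PC.filter (fun t => rk t < n), d ^ lam t) *
                ∑ ρ ∈ Q, (wt ρ : ℝ)) := mul_le_mul_of_nonneg_left i4 (by positivity)
            _ = _ := by ring
        · have e1 : PC.filter (fun t => rk t < n + 1) = PC.filter (fun t => rk t < n) := by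
            ext t
            rw [mem_filter, mem_filter]
            constructor
            · rintro ⟨g1, g2⟩
              rcases hcases t (hPC g1) g2 with h | h
              · exact ⟨g1, h⟩
              · rw [h] at g1
                exact absurd g1 hPt
            · rintro ⟨g1, g2⟩
              exact ⟨g1, by omega⟩
          rw [e1]
          have e3 : ∀ ρ, pot G lam d (Function.update φ t0 y) (PC.filter (fun t => rk t < n)) ρ =
              pot G lam d φ (PC.filter (fun t => rk t < n)) ρ := by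
            intro ρ
            apply pot_congr
            intro t ht
            exact hupd t (mem_filter.mp ht).2
          simp only [e3]
          exact i4
    · push Not at hex
      have hcases : ∀ t ∈ P, rk t < n + 1 → rk t < n := by
        intro t ht h
        have := hex t ht
        omega
      refine ⟨φ, ?_, ?_, ?_, ?_⟩
      · intro s hs t ht hs' ht'
        exact i1 s hs t ht (hcases s hs hs') (hcases t ht ht')
      · intro t ht ht'
        exact i2 t ht (hcases t ht ht')
      · intro t ht ht'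
        exact i3 t ht (hcases t (hCon t ht).1 ht')
      · have e1 : PC.filter (fun t => rk t < n + 1) = PC.filter (fun t => rk t < n) := by
          ext t
          rw [mem_filter, mem_filter]
          constructor
          · rintro ⟨g1, g2⟩
            exact ⟨g1, hcases t (hPC g1) g2⟩
          · rintro ⟨g1, g2⟩
            exact ⟨g1, by omega⟩
        rw [e1]
        exact i4

lemma d_facts (lm : ℕ) (hlm : 1 ≤ lm) :
    (0 : ℝ) < (lm : ℝ) / (lm + 3) ∧ (lm : ℝ) / (lm + 3) ≤ 1 ∧
      1 / 31 ≤ ((lm : ℝ) / (lm + 3)) ^ lm ∧ ((lm : ℝ) / (lm + 3)) ^ lm ≤ 1 / 4 := by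
  have h0 : (0 : ℝ) < lm := by exact_mod_cast hlm
  have h1 : (lm : ℝ) / (lm + 3) = (1 + 3 / (lm : ℝ))⁻¹ := by
    field_simp
  have h2 : (1 + 3 / (lm : ℝ)) ^ lm ≤ 31 := by
    calc (1 + 3 / (lm : ℝ)) ^ lm ≤ (Real.exp (3 / lm)) ^ lm := by
          apply pow_le_pow_left₀ (by positivity)
          have := Real.add_one_le_exp (3 / (lm : ℝ))
          linarith
      _ = Real.exp 3 := by
          rw [← Real.exp_nat_mul]
          congr 1
          field_simp
      _ = Real.exp 1 ^ 3 := by
          rw [← Real.exp_nat_mul]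
          norm_num
      _ ≤ (2.7182818286 : ℝ) ^ 3 := by
          apply pow_le_pow_left₀ (Real.exp_pos 1).le Real.exp_one_lt_d9.le
      _ ≤ 31 := by norm_num
  have h3 : 4 ≤ (1 + 3 / (lm : ℝ)) ^ lm := by
    have := one_add_mul_le_pow (a := 3 / (lm : ℝ)) (by
      have : 0 ≤ 3 / (lm : ℝ) := by positivity
      linarith) lm
    have e : (lm : ℝ) * (3 / lm) = 3 := by field_simp
    rw [e] at this
    linarith
  refine ⟨by positivity, ?_, ?_, ?_⟩
  · rw [div_le_one (by positivity)]
    linarith
  · rw [h1, inv_pow]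
    rw [one_div]
    exact inv_anti₀ (by linarith) h2
  · rw [h1, inv_pow, one_div]
    exact inv_anti₀ (by norm_num) h3

theorem rgp (G : SimpleGraph V) [Nonempty V] (P : Finset α) (rk : α → ℕ)
    (hrk : Set.InjOn rk (P : Set α)) (par : α → α) (Con : Finset α)
    (hCon : ∀ t ∈ Con, t ∈ P ∧ par t ∈ P ∧ rk (par t) < rk t)
    (Reg : α → Finset V) (cl : α → ℕ)
    (hdisj : ∀ t ∈ P, ∀ t' ∈ P, cl t ≠ cl t' → Disjoint (Reg t) (Reg t'))
    (PC : Finset α) (hPC : PC ⊆ P) (Q : Finset V) (m : ℕ) (hm : 1 ≤ m) (hQ : Near G Q m)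
    (hPCQ : ∀ t ∈ PC, Reg t ⊆ Q)
    (h1 : ∀ t ∈ Con, ∀ y ∈ Reg (par t),
      (P.filter (fun t' => rk t' < rk t ∧ cl t' = cl t)).card + (if t ∈ PC then 32 * m else 1) ≤
        ((Reg t).filter (fun x => G.Adj y x)).card)
    (h2 : ∀ t ∈ P, t ∉ Con →
      (P.filter (fun t' => rk t' < rk t ∧ cl t' = cl t)).card + (if t ∈ PC then 32 * m else 1) ≤
        (Reg t).card)
    (lam : α → ℕ) (lm : ℕ) (hlm : 1 ≤ lm) (hlam : ∀ t ∈ PC, lam t ≤ lm) (wt : V → ℕ) (g0 : ℕ) :
    ∃ φ : α → V, Set.InjOn φ (P : Set α) ∧ (∀ t ∈ P, φ t ∈ Reg t) ∧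
      (∀ t ∈ Con, G.Adj (φ (par t)) (φ t)) ∧
      (∑ ρ ∈ Q.filter (fun ρ => ∑ t ∈ PC.filter (fun t => G.Adj (φ t) ρ), lam t ≤ g0), wt ρ) *
        4 ^ ((∑ t ∈ PC, lam t - 2 * g0) / lm) ≤ ∑ ρ ∈ Q, wt ρ := by
  obtain ⟨d0, d1, d2, d3⟩ := d_facts lm hlm
  set d : ℝ := (lm : ℝ) / (lm + 3) with hd
  set N := P.sup rk + 1 with hN
  have hrN : ∀ t ∈ P, rk t < N := by
    intro t ht
    have := le_sup (f := rk) ht
    omega
  obtain ⟨φ, i1, i2, i3, i4⟩ := rgp_aux G P rk hrk par Con hCon Reg cl hdisj PC hPC Q m hm hQ hPCQ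
    h1 h2 lam wt d d0 d1 (by
      intro t ht
      refine le_trans d2 ?_
      exact pow_le_pow_of_le_one d0.le d1 (hlam t ht)) N
  refine ⟨φ, ?_, ?_, ?_, ?_⟩
  · intro s hs t ht hst
    exact i1 s hs t ht (hrN s hs) (hrN t ht) hst
  · intro t ht
    exact i2 t ht (hrN t ht)
  · intro t ht
    exact i3 t ht (hrN t (hCon t ht).1)
  · have e1 : PC.filter (fun t => rk t < N) = PC := by
      rw [filter_true_of_mem]
      intro t ht
      exact hrN t (hPC ht)
    rw [e1, prod_pow_eq_pow_sum] at i4
    set Lam := ∑ t ∈ PC, lam t with hLam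
    set Bs := Q.filter (fun ρ => ∑ t ∈ PC.filter (fun t => G.Adj (φ t) ρ), lam t ≤ g0) with hBs
    set E := (Lam - 2 * g0) / lm with hE
    -- lower bound of the potential sum
    have e2 : (∑ ρ ∈ Bs, (wt ρ : ℝ)) * d ^ (2 * g0) ≤ d ^ Lam * ∑ ρ ∈ Q, (wt ρ : ℝ) := by
      calc (∑ ρ ∈ Bs, (wt ρ : ℝ)) * d ^ (2 * g0) = ∑ ρ ∈ Bs, (wt ρ : ℝ) * d ^ (2 * g0) :=
            sum_mul _ _ _
        _ ≤ ∑ ρ ∈ Bs, (wt ρ : ℝ) * pot G lam d φ PC ρ := by
            apply sum_le_sum
            intro ρ hρ
            apply mul_le_mul_of_nonneg_left _ (Nat.cast_nonneg _)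
            rw [pot_eq]
            apply pow_le_pow_of_le_one d0.le d1
            have := (mem_filter.mp hρ).2
            omega
        _ ≤ ∑ ρ ∈ Q, (wt ρ : ℝ) * pot G lam d φ PC ρ := by
            apply sum_le_sum_of_subset_of_nonneg (filter_subset _ _)
            intro ρ _ _
            exact mul_nonneg (Nat.cast_nonneg _) (pot_nonneg G lam d d0.le φ _ ρ)
        _ ≤ _ := i4
    have e3 : (∑ ρ ∈ Bs, (wt ρ : ℝ)) * 4 ^ E ≤ ∑ ρ ∈ Q, (wt ρ : ℝ) := by
      by_cases hL : Lam ≤ 2 * g0
      · have hE0 : E = 0 := by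
          rw [hE, Nat.sub_eq_zero_of_le hL, Nat.zero_div]
        rw [hE0, pow_zero, mul_one]
        apply sum_le_sum_of_subset_of_nonneg (filter_subset _ _)
        intro ρ _ _
        exact Nat.cast_nonneg _
      · push Not at hL
        have hEle : lm * E ≤ Lam - 2 * g0 := Nat.mul_div_le _ _
        have g1 : d ^ (Lam - 2 * g0) ≤ (1 / 4 : ℝ) ^ E := by
          calc d ^ (Lam - 2 * g0) ≤ d ^ (lm * E) := pow_le_pow_of_le_one d0.le d1 hEle
            _ = (d ^ lm) ^ E := by rw [pow_mul]
            _ ≤ (1 / 4 : ℝ) ^ E := pow_le_pow_left₀ (by positivity) d3 E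
        have g2 : d ^ Lam = d ^ (Lam - 2 * g0) * d ^ (2 * g0) := by
          rw [← pow_add]
          congr 1
          omega
        rw [g2] at e2
        have g3 : (∑ ρ ∈ Bs, (wt ρ : ℝ)) ≤ d ^ (Lam - 2 * g0) * ∑ ρ ∈ Q, (wt ρ : ℝ) := by
          have hpos : (0 : ℝ) < d ^ (2 * g0) := by positivity
          apply le_of_mul_le_mul_right _ hpos
          calc (∑ ρ ∈ Bs, (wt ρ : ℝ)) * d ^ (2 * g0) ≤ _ := e2
            _ = _ := by ring
        have hWn : (0 : ℝ) ≤ ∑ ρ ∈ Q, (wt ρ : ℝ) := sum_nonneg (fun _ _ => Nat.cast_nonneg _)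
        calc (∑ ρ ∈ Bs, (wt ρ : ℝ)) * 4 ^ E
            ≤ (d ^ (Lam - 2 * g0) * ∑ ρ ∈ Q, (wt ρ : ℝ)) * 4 ^ E :=
              mul_le_mul_of_nonneg_right g3 (by positivity)
          _ ≤ ((1 / 4 : ℝ) ^ E * ∑ ρ ∈ Q, (wt ρ : ℝ)) * 4 ^ E := by
              apply mul_le_mul_of_nonneg_right _ (by positivity)
              exact mul_le_mul_of_nonneg_right g1 hWn
          _ = ((1 / 4 : ℝ) ^ E * 4 ^ E) * ∑ ρ ∈ Q, (wt ρ : ℝ) := by ring
          _ = ∑ ρ ∈ Q, (wt ρ : ℝ) := by
              rw [← mul_pow]
              norm_num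
    exact_mod_cast e3

end Pool.Agent.H43.TC
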