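import Pool.Agent.H43.TC.Defs

set_option autoImplicit false

/-
[H27 TC SPeel]  Peeling by clique-degree, and elementary counting of cliques.

peel2: same induction as Pool.Agent.H28.TreeClique.peel, with the condition 'u is in at least th
cliques of the current set' in place of the degree condition. If every u in S has th <= cd G r S u
take C = S. Otherwise some x in S has cd G r S x <= th - 1; KS S is the disjoint union of the
cliques containing x and KS (S.erase x), so |KS S| <= (th - 1) + |KS (S.erase x)|; induction for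
S.erase x.
cd_le: K -> K.erase v maps the cliques containing v injectively into powersetCard (r-1) (nb G S v).
pair_le: K -> (K.erase v).erase x, into powersetCard (r-2) of nb G (nb G S v) x
 (when v and x are adjacent; if no clique contains both the bound is trivial).
cd_sum: double counting of pairs (v, K), v in K (sum_card_bipartiteAbove_eq_sum_card_bipartiteBelow
 or sum_comm), every K has r elements and lies in S.
cd_mono: KS G r S ⊆ KS G r S' for S ⊆ S'.
cd_le_nb: the number of cliques of S containing v and not contained in Q is at most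
 sum over x in nb(S, v) \ Q of the number of cliques containing v and x.
-/

namespace Pool.Agent.H43.TC

open Finset Classical
open Pool.Agent.H28.TreeClique

variable {V : Type*}

theorem ks_mono (G : SimpleGraph V) (r : ℕ) {S S' : Finset V} (h : S ⊆ S') :
    KS G r S ⊆ KS G r S' := by
  intro C hC
  rw [mem_KS] at hC ⊢
  exact ⟨⟨hC.1.1.trans h, hC.1.2⟩, hC.2⟩

theorem ks_le_choose (G : SimpleGraph V) (r : ℕ) (S : Finset V) :
    (KS G r S).card ≤ S.card.choose r := by
  unfold KS
  refine (card_filter_le _ _).trans ?_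
  rw [card_powersetCard]

/-- Cliques through `x`. -/
lemma ks_erase (G : SimpleGraph V) (r : ℕ) (S : Finset V) (x : V) :
    (KS G r S).card ≤ cd G r S x + (KS G r (S.erase x)).card := by
  have h1 : KS G r S ⊆ (KS G r S).filter (fun C => x ∈ C) ∪ KS G r (S.erase x) := by
    intro K hK
    rw [mem_union]
    by_cases hxK : x ∈ K
    · left; exact mem_filter.mpr ⟨hK, hxK⟩
    · right
      rw [mem_KS] at hK ⊢
      refine ⟨⟨?_, hK.1.2⟩, hK.2⟩
      intro z hz
      exact mem_erase.mpr ⟨fun h => hxK (h ▸ hz), hK.1.1 hz⟩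
  exact (card_le_card h1).trans (card_union_le _ _)

theorem peel2 (G : SimpleGraph V) (r th : ℕ) (S : Finset V) :
    ∃ C ⊆ S, (∀ u ∈ C, th ≤ cd G r C u) ∧
      (KS G r S).card ≤ (S \ C).card * (th - 1) + (KS G r C).card ∧
      ∀ j ≤ (S \ C).card, ∃ P ⊆ S \ C, P.card = j ∧
        (KS G r S).card ≤ j * (th - 1) + (KS G r (S \ P)).card := by
  induction S using Finset.strongInduction with
  | _ S ih =>
    by_cases hcore : ∀ u ∈ S, th ≤ cd G r S u
    · refine ⟨S, subset_refl _, hcore, by simp, ?_⟩
      intro j hj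
      have hj0 : j = 0 := by simpa using hj
      subst hj0
      exact ⟨∅, by simp, by simp, by simp⟩
    · push Not at hcore
      obtain ⟨x, hxS, hx⟩ := hcore
      obtain ⟨C, hCS, hC, hk, hP⟩ := ih (S.erase x) (erase_ssubset hxS)
      have hxC : x ∉ C := fun h => notMem_erase _ _ (hCS h)
      have e2 := ks_erase G r S x
      have hsd : S \ C = insert x ((S.erase x) \ C) := by
        ext z
        simp only [mem_sdiff, mem_insert, mem_erase]
        constructor
        · rintro ⟨h1, h2⟩
          by_cases hz : z = x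
          · left; exact hz
          · right; exact ⟨⟨hz, h1⟩, h2⟩
        · rintro (rfl | h1)
          · exact ⟨hxS, hxC⟩
          · exact ⟨h1.1.2, h1.2⟩
      have hxn : x ∉ (S.erase x) \ C := by simp
      have hcc : (S \ C).card = ((S.erase x) \ C).card + 1 := by
        rw [hsd, card_insert_of_notMem hxn]
      refine ⟨C, hCS.trans (erase_subset _ _), hC, ?_, ?_⟩
      · rw [hcc, add_mul, one_mul]
        omega
      intro j hj
      rcases Nat.eq_zero_or_pos j with rfl | hjpos
      · exact ⟨∅, by simp, by simp, by simp⟩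
      rw [hcc] at hj
      obtain ⟨P, hP1, hP2, hP3⟩ := hP (j - 1) (by omega)
      have hxP : x ∉ P := fun h => hxn (hP1 h)
      refine ⟨insert x P, ?_, ?_, ?_⟩
      · rw [hsd]
        exact insert_subset_insert _ hP1
      · rw [card_insert_of_notMem hxP, hP2]
        omega
      · have e1 : S \ insert x P = (S.erase x) \ P := by
          ext z
          simp only [mem_sdiff, mem_insert, mem_erase, not_or]
          tauto
        rw [e1]
        obtain ⟨i, rfl⟩ : ∃ i, j = i + 1 := ⟨j - 1, by omega⟩
        rw [Nat.add_sub_cancel] at hP3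
        rw [add_mul, one_mul]
        omega

theorem cd_le (G : SimpleGraph V) (r : ℕ) (hr : 1 ≤ r) (S : Finset V) (v : V) :
    cd G r S v ≤ ((nb G S v).card).choose (r - 1) := by
  unfold cd
  rw [← card_powersetCard]
  apply card_le_card_of_injOn (fun K => K.erase v)
  · intro K hK
    rw [Finset.mem_coe, mem_filter, mem_KS] at hK
    rw [Finset.mem_coe, mem_powersetCard]
    refine ⟨?_, by rw [card_erase_of_mem hK.2, hK.1.1.2]⟩
    intro z hz
    rw [mem_erase] at hz
    exact mem_filter.mpr ⟨hK.1.1.1 hz.2, hK.1.2 hK.2 hz.2 (Ne.symm hz.1)⟩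
  · intro K hK K' hK' hKK
    rw [Finset.mem_coe, mem_filter] at hK hK'
    simp only at hKK
    rw [← insert_erase hK.2, ← insert_erase hK'.2, hKK]

theorem pair_le (G : SimpleGraph V) (r : ℕ) (hr : 2 ≤ r) (S : Finset V) (v x : V) (hvx : v ≠ x) :
    ((KS G r S).filter (fun C => v ∈ C ∧ x ∈ C)).card ≤
      ((nb G (nb G S v) x).card).choose (r - 2) := by
  rw [← card_powersetCard]
  apply card_le_card_of_injOn (fun K => (K.erase v).erase x)
  · intro K hK
    rw [Finset.mem_coe, mem_filter, mem_KS] at hK
    obtain ⟨⟨⟨k1, k2⟩, k3⟩, k4, k5⟩ := hK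
    rw [Finset.mem_coe, mem_powersetCard]
    have k6 : x ∈ K.erase v := mem_erase.mpr ⟨hvx.symm, k5⟩
    refine ⟨?_, by rw [card_erase_of_mem k6, card_erase_of_mem k4, k2]; omega⟩
    intro z hz
    rw [mem_erase, mem_erase] at hz
    rw [nb, mem_filter, nb, mem_filter]
    exact ⟨⟨k1 hz.2.2, k3 k4 hz.2.2 (Ne.symm hz.2.1)⟩, k3 k5 hz.2.2 (Ne.symm hz.1)⟩
  · intro K hK K' hK' hKK
    rw [Finset.mem_coe, mem_filter] at hK hK'
    simp only at hKK
    have k6 : x ∈ K.erase v := mem_erase.mpr ⟨hvx.symm, hK.2.2⟩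
    have k7 : x ∈ K'.erase v := mem_erase.mpr ⟨hvx.symm, hK'.2.2⟩
    rw [← insert_erase hK.2.1, ← insert_erase hK'.2.1, ← insert_erase k6, ← insert_erase k7, hKK]

theorem cd_sum (G : SimpleGraph V) (r : ℕ) (S : Finset V) :
    ∑ v ∈ S, cd G r S v = r * (KS G r S).card := by
  have h1 : ∀ v ∈ S, cd G r S v = ∑ C ∈ KS G r S, (if v ∈ C then 1 else 0) := by
    intro v _
    unfold cd
    rw [card_filter]
  rw [sum_congr rfl h1, sum_comm]
  have h2 : ∀ C ∈ KS G r S, ∑ v ∈ S, (if v ∈ C then 1 else 0) = r := by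
    intro C hC
    rw [mem_KS] at hC
    rw [← card_filter]
    have : S.filter (fun v => v ∈ C) = C := by
      ext z
      rw [mem_filter]
      exact ⟨fun h => h.2, fun h => ⟨hC.1.1 h, h⟩⟩
    rw [this, hC.1.2]
  rw [sum_congr rfl h2, sum_const, smul_eq_mul, mul_comm]

/-- Cliques of `S` containing `v` but not contained in `Q`. -/
theorem cd_out (G : SimpleGraph V) (r : ℕ) (S Q : Finset V) (hQS : Q ⊆ S) (v : V) (hv : v ∈ Q) :
    cd G r S v ≤ cd G r Q v +
      ∑ x ∈ nb G S v \ Q, ((KS G r S).filter (fun C => v ∈ C ∧ x ∈ C)).card := by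
  have h1 : (KS G r S).filter (fun C => v ∈ C) ⊆ (KS G r Q).filter (fun C => v ∈ C) ∪
      (nb G S v \ Q).biUnion (fun x => (KS G r S).filter (fun C => v ∈ C ∧ x ∈ C)) := by
    intro C hC
    rw [mem_filter] at hC
    rw [mem_union]
    by_cases hCQ : C ⊆ Q
    · left
      rw [mem_filter]
      refine ⟨?_, hC.2⟩
      have := hC.1
      rw [mem_KS] at this ⊢
      exact ⟨⟨hCQ, this.1.2⟩, this.2⟩
    · right
      rw [not_subset] at hCQ
      obtain ⟨x, hxC, hxQ⟩ := hCQ
      rw [mem_biUnion]
      refine ⟨x, ?_, mem_filter.mpr ⟨hC.1, hC.2, hxC⟩⟩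
      have := hC.1
      rw [mem_KS] at this
      rw [mem_sdiff, nb, mem_filter]
      refine ⟨⟨this.1.1 hxC, this.2 hC.2 hxC ?_⟩, hxQ⟩
      rintro rfl
      exact hxQ hv
  refine (card_le_card h1).trans ((card_union_le _ _).trans ?_)
  exact Nat.add_le_add_left card_biUnion_le _

end Pool.Agent.H43.TC
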