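import Pool.Agent.H43.TC.Defs

set_option autoImplicit false

/-
[H27 TC TBas]  Basic facts on trees.
(1) dg_eq: dg T x = T.degree x (card of neighborFinset; SimpleGraph.degree unfolds to it).
(2) dg_sum: sum of the degrees plus 2 equals 2 |T| (SimpleGraph.sum_degrees_eq_twice_card_edges and
    IsTree.card_edgeFinset : edgeFinset.card + 1 = card).
(3) dg_pos: 1 <= dg T x if |T| >= 2 (connected).
(4) leaf_nbr: if |T| >= 3 there is pi : α → α with, for every leaf x: T.Adj x (pi x), pi x is the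
    only neighbour of x, and pi x is not a leaf. (If x and pi x were both leaves, {x, pi x} would be
    closed under adjacency, hence everything by connectedness, so |T| = 2.)
(5) card_NL_LF: |NL| + |LF| = |T| (filter_card_add_filter_neg_card_eq_card).
(6) sum_lfs: the sets lfs T c, c in NL, partition LF: sum over NL of |lfs T c| = |LF| when |T| >= 3
    (card_eq_sum_card_fiberwise with pi).
(7) emb_of: an injective f with the adjacency property contradicts T.Free G.
-/

namespace Pool.Agent.H43.TC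

open Finset Classical
open Pool.Agent.H28.TreeClique

variable {V α : Type*} [Fintype α]

theorem dg_eq (T : SimpleGraph α) (x : α) : dg T x = T.degree x := by
  unfold dg
  rw [← SimpleGraph.card_neighborFinset_eq_degree]
  congr 1
  ext y
  rw [mem_filter, SimpleGraph.mem_neighborFinset]
  simp

theorem dg_sum (T : SimpleGraph α) (hT : T.IsTree) :
    ∑ x, dg T x + 2 = 2 * Fintype.card α := by
  have h1 := T.sum_degrees_eq_twice_card_edges
  have h2 := hT.card_edgeFinset
  have h3 : ∑ x, dg T x = ∑ x, T.degree x := sum_congr rfl (fun x _ => dg_eq T x)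
  rw [h3, h1]
  omega

theorem dg_pos (T : SimpleGraph α) (hT : T.IsTree) (h2 : 2 ≤ Fintype.card α) (x : α) :
    1 ≤ dg T x := by
  have : Nontrivial α := Fintype.one_lt_card_iff_nontrivial.mp (by omega)
  rw [dg_eq]
  exact hT.connected.preconnected.degree_pos_of_nontrivial x

theorem leaf_nbr (T : SimpleGraph α) (hT : T.IsTree) (h3 : 3 ≤ Fintype.card α) :
    ∃ pi : α → α, ∀ x, dg T x = 1 →
      T.Adj x (pi x) ∧ (∀ y, T.Adj x y → y = pi x) ∧ dg T (pi x) ≠ 1 := by
  have hex : ∀ x, ∃ y, dg T x = 1 →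
      T.Adj x y ∧ (∀ z, T.Adj x z → z = y) ∧ dg T y ≠ 1 := by
    intro x
    by_cases hx : dg T x = 1
    · have hx' := hx
      rw [dg_eq] at hx'
      obtain ⟨y, hy1, hy2⟩ := SimpleGraph.degree_eq_one_iff_existsUnique_adj.mp hx'
      refine ⟨y, fun _ => ⟨hy1, fun z hz => hy2 z hz, ?_⟩⟩
      intro hy
      rw [dg_eq] at hy
      exact leaf_not_adj_leaf T hT h3 x y hx' hy1 hy
    · exact ⟨x, fun h => absurd h hx⟩
  choose pi hpi using hex
  exact ⟨pi, hpi⟩

theorem card_NL_LF (T : SimpleGraph α) : (NL T).card + (LF T).card = Fintype.card α := by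
  have h := card_filter_add_card_filter_not (s := (univ : Finset α)) (fun x => dg T x = 1)
  rw [card_univ] at h
  have e1 : NL T = univ.filter (fun x => ¬ dg T x = 1) := by
    ext x
    simp [NL]
  rw [e1, LF]
  omega

theorem sum_lfs (T : SimpleGraph α) (hT : T.IsTree) (h3 : 3 ≤ Fintype.card α) :
    ∑ c ∈ NL T, (lfs T c).card = (LF T).card := by
  obtain ⟨pi, hpi⟩ := leaf_nbr T hT h3
  have h1 : ∀ x ∈ LF T, pi x ∈ NL T := by
    intro x hx
    rw [LF, mem_filter] at hx
    rw [NL, mem_filter]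
    exact ⟨mem_univ _, (hpi x hx.2).2.2⟩
  rw [card_eq_sum_card_fiberwise h1]
  apply sum_congr rfl
  intro c _
  congr 1
  ext x
  rw [lfs, LF, mem_filter, mem_filter, mem_filter]
  constructor
  · rintro ⟨-, h4, h5⟩
    exact ⟨⟨mem_univ _, h5⟩, ((hpi x h5).2.1 c h4.symm).symm⟩
  · rintro ⟨⟨-, h4⟩, rfl⟩
    exact ⟨mem_univ _, (hpi x h4).1.symm, h4⟩

theorem free_of_not_emb (T : SimpleGraph α) (G : SimpleGraph V) (h : T.Free G) : ¬ Emb T G := by
  rintro ⟨f, hf1, hf2⟩
  exact h ⟨⟨⟨f, fun {a b} hab => hf2 a b hab⟩, hf1⟩⟩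

end Pool.Agent.H43.TC
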