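import Pool.Agent.H43.TC.TBas

set_option autoImplicit false

/-
[H27 TC TClass]  Classification: many spread vertices of degree <= 2, or few non-leaves.

Suppose every Spread set has fewer than a0 elements. Let NL = non-leaves, for v in NL let
d''(v) = number of neighbours in NL, so dg v = d''(v) + |lfs v|, and
sum_{v in NL} d''(v) = sum_{NL} dg - |LF| = (2|T| - 2 - |LF|) - |LF| = 2|NL| - 2
(dg_sum, leaves contribute |LF|, sum_lfs, card_NL_LF).
(1) B = {v in NL : lfs v nonempty}: choose one leaf for each v in B: this set is Spread (leaves have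
    degree 1; two leaves are not adjacent by leaf_nbr; a common neighbour x of two chosen leaves is
    the unique neighbour of both, and one leaf per v was chosen). So |B| < a0.
(2) D = {v in NL : v not in B, d''(v) = 2} (so dg v = 2), X = NL \ D. For v in X: if d''(v) <= 1 then
    v in B (dg v >= 2 since v is not a leaf and dg >= 1, so there is a leaf at v); if d''(v) = 2 then
    v in B. Let X3 = {v in X: d''(v) >= 3}, X \ X3 subset of B.
    sum_{NL} (d'' - 2) = -2, so |X3| <= sum_{X3} (d''-2) <= sum_{v in NL, d'' <= 1} (2 - d'') - 2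
    = ... <= 2|B| - 2.  (Here each v with d'' <= 1 contributes at most 2; d'' = 0 only if NL = {v}.)
    So |X| <= 3|B| and sum_{X} d'' = 2|X| - 2 <= 6 |B|.
    [If one notes d'' >= 1 when |NL| >= 2, this improves to |X| <= 2|B|; the bound needed below is
    11 a0, so use the sharper form:] if |NL| >= 2 then d'' >= 1 on NL (T is connected and removing
    leaves keeps NL connected: a path between two non-leaves has only non-leaf vertices), hence
    |X3| <= |{v : d'' = 1}| - 2 <= |B|, |X| <= 2|B|, sum_{X} d'' <= 4|B|. If |NL| <= 1 the claim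
    |NL| <= 11 a0 is trivial.
(3) D1 = {v in D : both neighbours of v are in D}. |D \ D1| <= sum_{v in X} d''(v) <= 4|B| (each v in
    D \ D1 has a neighbour in X (its neighbours are in NL, as v is not in B); count pairs).
(4) In D1 choose a maximal Spread subset A'. Every v in D1 is in A', or adjacent to an element of A',
    or has a common neighbour with one. For a in A' (a in D1): a has 2 neighbours, both in D, each
    having 2 neighbours: so at most 1 + 2 + 2 = 5 vertices v are blocked by a. Hence
    |D1| <= 5 |A'| < 5 a0.   (Elements of D have degree 2 in T.)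
Total |NL| = |X| + |D \ D1| + |D1| <= 2 a0 + 4 a0 + 5 a0 = 11 a0.
-/

namespace Pool.Agent.H43.TC

open Finset Classical
open Pool.Agent.H28.TreeClique

variable {α : Type*} [Fintype α]

/-- The neighbours of `v` that are not leaves. -/
noncomputable def n2 (T : SimpleGraph α) (v : α) : Finset α :=
  univ.filter (fun y => T.Adj v y ∧ dg T y ≠ 1)

theorem mem_n2 (T : SimpleGraph α) (v y : α) : y ∈ n2 T v ↔ T.Adj v y ∧ dg T y ≠ 1 := by
  rw [n2, mem_filter]
  simp

theorem dg_n2 (T : SimpleGraph α) (v : α) : dg T v = (n2 T v).card + (lfs T v).card := by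
  have h := card_filter_add_card_filter_not (s := univ.filter (fun y => T.Adj v y))
    (fun y => dg T y ≠ 1)
  rw [filter_filter, filter_filter] at h
  have e1 : lfs T v = univ.filter (fun y => T.Adj v y ∧ ¬ dg T y ≠ 1) := by
    ext y
    rw [lfs, mem_filter, mem_filter, not_not]
  rw [e1, n2, dg]
  exact h.symm

theorem sum_n2 (T : SimpleGraph α) (hT : T.IsTree) (h3 : 3 ≤ Fintype.card α) :
    ∑ v ∈ NL T, (n2 T v).card + 2 = 2 * (NL T).card := by
  have h1 := dg_sum T hT
  have h2 := card_NL_LF T
  have h4 := sum_lfs T hT h3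
  have h5 : ∑ v ∈ NL T, dg T v = ∑ v ∈ NL T, (n2 T v).card + ∑ v ∈ NL T, (lfs T v).card := by
    rw [← sum_add_distrib]
    exact sum_congr rfl (fun v _ => dg_n2 T v)
  have h6 : ∑ v ∈ NL T, dg T v + ∑ v ∈ LF T, dg T v = ∑ v, dg T v := by
    have h := sum_filter_add_sum_filter_not (univ : Finset α) (fun x => dg T x ≠ 1) (dg T)
    have e1 : LF T = univ.filter (fun x => ¬ dg T x ≠ 1) := by
      ext y
      rw [LF, mem_filter, mem_filter, not_not]
    rw [e1, NL]
    exact h
  have h7 : ∑ v ∈ LF T, dg T v = (LF T).card := by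
    rw [card_eq_sum_ones]
    apply sum_congr rfl
    intro v hv
    rw [LF, mem_filter] at hv
    exact hv.2
  omega

theorem n2_pos (T : SimpleGraph α) (hT : T.IsTree) (h3 : 3 ≤ Fintype.card α)
    (h2 : 2 ≤ (NL T).card) (v : α) (hv : v ∈ NL T) : 1 ≤ (n2 T v).card := by
  by_contra hcon
  have h0 : n2 T v = ∅ := by
    rw [← card_eq_zero]
    omega
  obtain ⟨pi, hpi⟩ := leaf_nbr T hT h3
  obtain ⟨w, hw, hwv⟩ := exists_mem_ne (by omega : 1 < (NL T).card) v
  obtain ⟨p⟩ := hT.connected.preconnected v w
  have hwS : w ∉ (insert v (lfs T v) : Finset α) := by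
    rw [mem_insert, lfs, mem_filter]
    rintro (h | h)
    · exact hwv h
    · rw [NL, mem_filter] at hw
      exact hw.2 h.2.2
  obtain ⟨d, -, hd1, hd2⟩ := p.exists_boundary_dart
    ((insert v (lfs T v) : Finset α) : Set α) (by simp) (by simpa using hwS)
  rw [mem_coe] at hd1 hd2
  apply hd2
  rw [mem_insert] at hd1 ⊢
  rcases hd1 with h | h
  · right
    rw [lfs, mem_filter]
    have hadj : T.Adj v d.snd := by
      rw [← h]
      exact d.adj
    refine ⟨mem_univ _, hadj, ?_⟩
    by_contra hne
    have h4 : d.snd ∈ n2 T v := (mem_n2 T v _).mpr ⟨hadj, hne⟩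
    rw [h0] at h4
    simp at h4
  · left
    rw [lfs, mem_filter] at h
    rw [(hpi _ h.2.2).2.1 _ d.adj, (hpi _ h.2.2).2.1 _ h.2.1.symm]

theorem classify (T : SimpleGraph α) (hT : T.IsTree) (h3 : 3 ≤ Fintype.card α) (a0 : ℕ)
    (ha : 1 ≤ a0) : TypeI T a0 ∨ (NL T).card ≤ 11 * a0 := by
  by_cases hI : TypeI T a0
  · left; exact hI
  right
  have hsp : ∀ A : Finset α, Spread T A → A.card < a0 := by
    intro A hA
    by_contra hcon
    push Not at hcon
    exact hI ⟨A, hA, hcon⟩
  by_cases hNL : (NL T).card ≤ 1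
  · omega
  push Not at hNL
  obtain ⟨pi, hpi⟩ := leaf_nbr T hT h3
  -- (1)
  have hB : ((NL T).filter (fun v => (lfs T v).Nonempty)).card < a0 := by
    have hex : ∀ v, ∃ x, (lfs T v).Nonempty → x ∈ lfs T v := by
      intro v
      by_cases h : (lfs T v).Nonempty
      · obtain ⟨x, hx⟩ := h
        exact ⟨x, fun _ => hx⟩
      · exact ⟨v, fun h' => absurd h' h⟩
    choose lf hlf using hex
    have hlf2 : ∀ v ∈ (NL T).filter (fun v => (lfs T v).Nonempty),
        dg T (lf v) = 1 ∧ pi (lf v) = v := by
      intro v hv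
      rw [mem_filter] at hv
      have h := hlf v hv.2
      rw [lfs, mem_filter] at h
      exact ⟨h.2.2, ((hpi _ h.2.2).2.1 v h.2.1.symm).symm⟩
    have hinj : Set.InjOn lf (((NL T).filter (fun v => (lfs T v).Nonempty) : Finset α) :
        Set α) := by
      intro v hv w hw hvw
      rw [mem_coe] at hv hw
      rw [← (hlf2 v hv).2, ← (hlf2 w hw).2, hvw]
    rw [← card_image_of_injOn hinj]
    apply hsp
    refine ⟨?_, ?_, ?_⟩
    · intro a ha
      rw [mem_image] at ha
      obtain ⟨v, hv, rfl⟩ := ha
      rw [(hlf2 v hv).1]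
      omega
    · intro a ha b hb hab
      rw [mem_image] at ha hb
      obtain ⟨v, hv, rfl⟩ := ha
      obtain ⟨w, hw, rfl⟩ := hb
      have h := (hpi _ (hlf2 v hv).1).2.1 _ hab
      have h' := (hpi _ (hlf2 v hv).1).2.2
      rw [← h] at h'
      exact h' (hlf2 w hw).1
    · intro a ha b hb x hax hbx
      rw [mem_image] at ha hb
      obtain ⟨v, hv, rfl⟩ := ha
      obtain ⟨w, hw, rfl⟩ := hb
      have h1 := (hpi _ (hlf2 v hv).1).2.1 _ hax
      have h2 := (hpi _ (hlf2 w hw).1).2.1 _ hbx
      rw [(hlf2 v hv).2] at h1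
      rw [(hlf2 w hw).2] at h2
      rw [← h1, ← h2]
  set B := (NL T).filter (fun v => (lfs T v).Nonempty) with hBdef
  set D := (NL T).filter (fun v => lfs T v = ∅ ∧ (n2 T v).card = 2) with hDdef
  set X := NL T \ D with hXdef
  have hDN : D ⊆ NL T := filter_subset _ _
  have hXN : X ⊆ NL T := sdiff_subset
  have hXD : X.card + D.card = (NL T).card := by
    rw [hXdef]
    exact card_sdiff_add_card_eq_card hDN
  have hsum : ∑ v ∈ X, (n2 T v).card + ∑ v ∈ D, (n2 T v).card = ∑ v ∈ NL T, (n2 T v).card := by
    rw [hXdef]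
    exact sum_sdiff hDN
  have hsumD : ∑ v ∈ D, (n2 T v).card = 2 * D.card := by
    rw [card_eq_sum_ones, mul_sum]
    apply sum_congr rfl
    intro v hv
    rw [hDdef, mem_filter] at hv
    omega
  have hn2 := sum_n2 T hT h3
  -- (2)
  have hX3 : ∀ v ∈ X \ B, 3 ≤ (n2 T v).card := by
    intro v hv
    rw [mem_sdiff] at hv
    have hvN := hXN hv.1
    have h0 : lfs T v = ∅ := by
      by_contra hne
      apply hv.2
      rw [hBdef, mem_filter]
      exact ⟨hvN, nonempty_iff_ne_empty.mpr hne⟩
    have h1 := dg_n2 T v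
    rw [h0, card_empty] at h1
    have h4 := dg_pos T hT (by omega) v
    have h5 : dg T v ≠ 1 := by
      rw [NL, mem_filter] at hvN
      exact hvN.2
    have h6 : (n2 T v).card ≠ 2 := by
      intro h
      have h7 := hv.1
      rw [hXdef, mem_sdiff] at h7
      apply h7.2
      rw [hDdef, mem_filter]
      exact ⟨hvN, h0, h⟩
    omega
  have hXB : X.card ≤ 2 * B.card := by
    have h1 : ∑ v ∈ X \ B, (n2 T v).card + ∑ v ∈ X ∩ B, (n2 T v).card =
        ∑ v ∈ X, (n2 T v).card := by
      rw [add_comm]
      exact sum_inter_add_sum_sdiff X B _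
    have h2 : 3 * (X \ B).card ≤ ∑ v ∈ X \ B, (n2 T v).card := by
      rw [card_eq_sum_ones, mul_sum]
      apply sum_le_sum
      intro v hv
      have := hX3 v hv
      omega
    have h4 : (X ∩ B).card ≤ ∑ v ∈ X ∩ B, (n2 T v).card := by
      rw [card_eq_sum_ones]
      apply sum_le_sum
      intro v hv
      exact n2_pos T hT h3 (by omega) v (hXN (mem_of_mem_inter_left hv))
    have h5 : (X \ B).card + (X ∩ B).card = X.card := card_sdiff_add_card_inter X B
    have h6 : (X ∩ B).card ≤ B.card := card_le_card inter_subset_right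
    omega
  -- (3)
  set D1 := D.filter (fun v => n2 T v ⊆ D) with hD1def
  have hD1D : D1 ⊆ D := filter_subset _ _
  have hDD : (D \ D1).card ≤ ∑ v ∈ X, (n2 T v).card := by
    refine le_trans (card_le_card (t := X.biUnion (n2 T)) ?_) card_biUnion_le
    intro v hv
    rw [mem_sdiff] at hv
    have h1 : ¬ n2 T v ⊆ D := fun h => hv.2 (by rw [hD1def, mem_filter]; exact ⟨hv.1, h⟩)
    rw [not_subset] at h1
    obtain ⟨x, hx1, hx2⟩ := h1
    rw [mem_n2] at hx1
    rw [mem_biUnion]
    refine ⟨x, ?_, ?_⟩
    · rw [hXdef, mem_sdiff, NL, mem_filter]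
      exact ⟨⟨mem_univ _, hx1.2⟩, hx2⟩
    · rw [mem_n2]
      refine ⟨hx1.1.symm, ?_⟩
      have h4 := hDN hv.1
      rw [NL, mem_filter] at h4
      exact h4.2
  have hDDc : (D \ D1).card + D1.card = D.card := card_sdiff_add_card_eq_card hD1D
  -- (4)
  have hDdg : ∀ v ∈ D, dg T v = 2 ∧ univ.filter (fun y => T.Adj v y) = n2 T v := by
    intro v hv
    rw [hDdef, mem_filter] at hv
    obtain ⟨hv1, hv2, hv3⟩ := hv
    have h1 := dg_n2 T v
    rw [hv2, hv3, card_empty] at h1
    refine ⟨h1, ?_⟩
    ext y
    rw [mem_filter, mem_n2]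
    constructor
    · rintro ⟨-, h⟩
      refine ⟨h, fun h' => ?_⟩
      have h4 : y ∈ lfs T v := by
        rw [lfs, mem_filter]
        exact ⟨mem_univ _, h, h'⟩
      rw [hv2] at h4
      simp at h4
    · rintro ⟨h, -⟩
      exact ⟨mem_univ _, h⟩
  have hD1 : D1.card ≤ 5 * a0 := by
    obtain ⟨A, hAm, hAmax⟩ := exists_max_image (D1.powerset.filter (fun A => Spread T A)) card
      ⟨∅, by
        rw [mem_filter, mem_powerset]
        exact ⟨empty_subset _, by simp [Spread]⟩⟩
    rw [mem_filter, mem_powerset] at hAm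
    obtain ⟨hAD, hAS⟩ := hAm
    have hcov : D1 ⊆ A.biUnion (fun a => insert a ((n2 T a) ∪
        (n2 T a).biUnion (fun x => (n2 T x).erase a))) := by
      intro v hv
      rw [mem_biUnion]
      by_cases hvA : v ∈ A
      · exact ⟨v, hvA, mem_insert_self _ _⟩
      have hns : ¬ Spread T (insert v A) := by
        intro hS
        have h1 := hAmax (insert v A) (by
          rw [mem_filter, mem_powerset]
          exact ⟨insert_subset hv hAD, hS⟩)
        rw [card_insert_of_notMem hvA] at h1
        omega
      have hvdg : dg T v = 2 := (hDdg v (hD1D hv)).1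
      have hmem : ∀ a ∈ A, ∀ y, T.Adj a y → y ∈ n2 T a := by
        intro a ha y hay
        rw [← (hDdg a (hD1D (hAD ha))).2, mem_filter]
        exact ⟨mem_univ _, hay⟩
      have hblock : ∀ a ∈ A, (T.Adj a v ∨ ∃ x, T.Adj a x ∧ T.Adj v x) → v ∈ insert a ((n2 T a) ∪
        (n2 T a).biUnion (fun x => (n2 T x).erase a)) := by
        intro a ha h
        rw [mem_insert, mem_union, mem_biUnion]
        right
        rcases h with h | ⟨x, hx1, hx2⟩
        · left; exact hmem a ha v h
        · right
          refine ⟨x, hmem a ha x hx1, ?_⟩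
          rw [mem_erase, mem_n2]
          exact ⟨fun h => hvA (h ▸ ha), hx2.symm, by omega⟩
      by_contra hcon
      push Not at hcon
      have hnb : ∀ a ∈ A, ¬ T.Adj a v ∧ ∀ x, T.Adj a x → ¬ T.Adj v x := by
        intro a ha
        refine ⟨fun h => hcon a ha (hblock a ha (Or.inl h)), fun x h1 h2 => ?_⟩
        exact hcon a ha (hblock a ha (Or.inr ⟨x, h1, h2⟩))
      apply hns
      obtain ⟨s1, s2, s3⟩ := hAS
      refine ⟨?_, ?_, ?_⟩
      · intro a ha
        rw [mem_insert] at ha
        rcases ha with rfl | ha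
        · omega
        · exact s1 a ha
      · intro a ha b hb hab
        rw [mem_insert] at ha hb
        rcases ha with rfl | ha
        · rcases hb with rfl | hb
          · exact hab.ne rfl
          · exact (hnb b hb).1 hab.symm
        · rcases hb with rfl | hb
          · exact (hnb a ha).1 hab
          · exact s2 a ha b hb hab
      · intro a ha b hb x hax hbx
        rw [mem_insert] at ha hb
        rcases ha with rfl | ha
        · rcases hb with rfl | hb
          · rfl
          · exact absurd hax ((hnb b hb).2 x hbx)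
        · rcases hb with rfl | hb
          · exact absurd hbx ((hnb a ha).2 x hax)
          · exact s3 a ha b hb x hax hbx
    have h1 := (card_le_card hcov).trans card_biUnion_le
    have h2 : ∀ a ∈ A, (insert a ((n2 T a) ∪
        (n2 T a).biUnion (fun x => (n2 T x).erase a))).card ≤ 5 := by
      intro a ha
      have haD1 := hAD ha
      rw [hD1def, mem_filter] at haD1
      have haD := haD1.1
      have hc2 : (n2 T a).card = 2 := by
        rw [hDdef, mem_filter] at haD
        exact haD.2.2
      have hadg : dg T a ≠ 1 := by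
        rw [(hDdg a haD1.1).1]
        omega
      have h4 : ((n2 T a).biUnion (fun x => (n2 T x).erase a)).card ≤ 2 := by
        refine card_biUnion_le.trans ?_
        rw [← hc2, card_eq_sum_ones]
        apply sum_le_sum
        intro x hx
        have hxD := haD1.2 hx
        rw [hDdef, mem_filter] at hxD
        rw [mem_n2] at hx
        rw [card_erase_of_mem ((mem_n2 T x a).mpr ⟨hx.1.symm, hadg⟩), hxD.2.2]
      have h5 := card_insert_le a ((n2 T a) ∪
        (n2 T a).biUnion (fun x => (n2 T x).erase a))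
      have h6 := card_union_le (n2 T a) ((n2 T a).biUnion (fun x => (n2 T x).erase a))
      omega
    have h4 := sum_le_sum h2
    rw [sum_const, smul_eq_mul] at h4
    have h5 := hsp A hAS
    have h6 : A.card * 5 ≤ 5 * a0 := by omega
    exact h1.trans (h4.trans h6)
  omega

end Pool.Agent.H43.TC
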