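import Pool.Agent.H43.TC.Defs

set_option autoImplicit false

/-
[H27 TC TOrd]  Parent function and a linear order compatible with the distance to the root.
par from Pool.Agent.H28.TreeClique.exists_parent T hT c. rk x := T.dist c x * (card α + 1) +
(Fintype.equivFin α x).val : injective (the second part is < card α + 1 and determines x), and
strictly larger distance gives strictly larger rk. For the third property use exists_parent's last
part: for T.Adj x y either dist c y + 1 = dist c x and y = par x (then x <> c as dist c c = 0) or
symmetric.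
-/

namespace Pool.Agent.H43.TC

open Finset Classical
open Pool.Agent.H28.TreeClique

variable {α : Type*} [Fintype α]

theorem exists_order (T : SimpleGraph α) (hT : T.IsTree) (c : α) :
    ∃ (par : α → α) (rk : α → ℕ), Function.Injective rk ∧
      (∀ x, x ≠ c → T.Adj x (par x) ∧ T.dist c (par x) + 1 = T.dist c x) ∧
      (∀ x y, T.Adj x y → (y = par x ∧ x ≠ c ∧ T.dist c y + 1 = T.dist c x) ∨
        (x = par y ∧ y ≠ c ∧ T.dist c x + 1 = T.dist c y)) ∧
      (∀ x y, T.dist c x < T.dist c y → rk x < rk y) := by
  obtain ⟨par, hpar1, hpar2⟩ := exists_parent T hT c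
  have hlt : ∀ x, (Fintype.equivFin α x).val < Fintype.card α + 1 := by
    intro x
    have := (Fintype.equivFin α x).2
    omega
  refine ⟨par, fun x => T.dist c x * (Fintype.card α + 1) + (Fintype.equivFin α x).val,
    ?_, hpar1, ?_, ?_⟩
  · intro x y hxy
    simp only at hxy
    have h1 := hlt x
    have h2 := hlt y
    have h3 : (Fintype.equivFin α x).val = (Fintype.equivFin α y).val := by
      have e1 := congrArg (fun z => z % (Fintype.card α + 1)) hxy
      simp only [Nat.mul_add_mod', Nat.mod_eq_of_lt h1, Nat.mod_eq_of_lt h2] at e1
      exact e1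
    exact (Fintype.equivFin α).injective (Fin.ext h3)
  · have hcc : T.dist c c = 0 := SimpleGraph.dist_self
    intro x y hxy
    rcases hpar2 x y hxy with ⟨h1, h2⟩ | ⟨h1, h2⟩
    · left
      refine ⟨h2, ?_, h1⟩
      rintro rfl
      omega
    · right
      refine ⟨h2, ?_, h1⟩
      rintro rfl
      omega
  · intro x y hxy
    simp only
    have h1 := hlt x
    have h3 : (T.dist c x + 1) * (Fintype.card α + 1) ≤ T.dist c y * (Fintype.card α + 1) :=
      Nat.mul_le_mul_right _ hxy
    rw [add_mul, one_mul] at h3
    omega

end Pool.Agent.H43.TC
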