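import Pool.Agent.H43.TC.TBas
import Pool.Agent.H43.TC.TOrd

set_option autoImplicit false

/-
[H27 TC TLeaf]  Choice of p leaves whose neighbours form a small independent set.

Ex = a set of excluded non-leaves. Let c be any vertex and colour vertices by the parity of
T.dist c x; adjacent vertices have different parity (hT.dist_eq_dist_add_one_of_adj).
sum over v in NL \ Ex of |lfs v| = |LF| - sum_{Ex ∩ NL} |lfs| >= 2p (sum_lfs), so for one parity e the
set Be = {v in NL \ Ex : parity e, lfs v nonempty} has sum_{Be} |lfs v| >= p.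
Choose I subset of Be of minimal cardinality with sum_I |lfs| >= p (exists: Be). Then |I| <= p and
sum_I |lfs| <= p + lm: removing one element v of I (if I nonempty) gives a sum < p, so
sum_I < p + |lfs v| <= p + lm, and |I| - 1 <= sum_{I \ v} <= p - 1.
Choose Lf subset of the union of lfs v, v in I, with exactly p elements. Neighbours of x in Lf lie
in I by leaf_nbr. I is independent: all elements have the same parity.
-/

namespace Pool.Agent.H43.TC

open Finset Classical
open Pool.Agent.H28.TreeClique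

variable {α : Type*} [Fintype α]

theorem leaf_sel (T : SimpleGraph α) (hT : T.IsTree) (h3 : 3 ≤ Fintype.card α) (p lm : ℕ)
    (Ex : Finset α) (hlm : ∀ c, (lfs T c).card ≤ lm)
    (hl : 2 * p + ∑ c ∈ Ex, (lfs T c).card ≤ (LF T).card) :
    ∃ Lf I : Finset α, Lf ⊆ LF T ∧ Lf.card = p ∧ I ⊆ NL T ∧ Disjoint I Ex ∧ I.card ≤ p ∧
      (∀ x ∈ Lf, ∀ y, T.Adj x y → y ∈ I) ∧ (∀ x ∈ I, ∀ y ∈ I, ¬ T.Adj x y) ∧
      ∑ c ∈ I, (lfs T c).card ≤ p + lm := by
  obtain ⟨c0⟩ : Nonempty α := Fintype.card_pos_iff.mp (by omega)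
  obtain ⟨pi, hpi⟩ := leaf_nbr T hT h3
  obtain ⟨par, rk, -, -, hpar, -⟩ := exists_order T hT c0
  -- one of the two parities
  obtain ⟨B, hB1, hB2, hB3, hB4⟩ : ∃ B : Finset α, B ⊆ NL T ∧ Disjoint B Ex ∧
      (∀ x ∈ B, ∀ y ∈ B, ¬ T.Adj x y) ∧ p ≤ ∑ c ∈ B, (lfs T c).card := by
    have h1 : ∑ c ∈ NL T, (lfs T c).card ≤
        ∑ c ∈ NL T \ Ex, (lfs T c).card + ∑ c ∈ Ex, (lfs T c).card := by
      have h2 : NL T ⊆ (NL T \ Ex) ∪ Ex := by
        intro x hx
        rw [mem_union, mem_sdiff]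
        by_cases h : x ∈ Ex
        · right; exact h
        · left; exact ⟨hx, h⟩
      refine (sum_le_sum_of_subset h2).trans ?_
      rw [sum_union sdiff_disjoint]
    rw [sum_lfs T hT h3] at h1
    have h2 := sum_filter_add_sum_filter_not (NL T \ Ex) (fun c => T.dist c0 c % 2 = 0)
      (fun c => (lfs T c).card)
    have hind : ∀ x y, T.Adj x y → T.dist c0 x % 2 ≠ T.dist c0 y % 2 := by
      intro x y hxy
      rcases hpar x y hxy with ⟨-, -, h⟩ | ⟨-, -, h⟩ <;> omega
    by_cases hcase : p ≤ ∑ c ∈ (NL T \ Ex).filter (fun c => T.dist c0 c % 2 = 0), (lfs T c).card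
    · refine ⟨(NL T \ Ex).filter (fun c => T.dist c0 c % 2 = 0), ?_, ?_, ?_, hcase⟩
      · exact (filter_subset _ _).trans sdiff_subset
      · exact disjoint_of_subset_left (filter_subset _ _) sdiff_disjoint
      · intro x hx y hy hxy
        rw [mem_filter] at hx hy
        exact hind x y hxy (by rw [hx.2, hy.2])
    · refine ⟨(NL T \ Ex).filter (fun c => ¬ T.dist c0 c % 2 = 0), ?_, ?_, ?_, by omega⟩
      · exact (filter_subset _ _).trans sdiff_subset
      · exact disjoint_of_subset_left (filter_subset _ _) sdiff_disjoint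
      · intro x hx y hy hxy
        rw [mem_filter] at hx hy
        exact hind x y hxy (by omega)
  obtain ⟨I, hIm, hImin⟩ := exists_min_image
    (B.powerset.filter (fun I => p ≤ ∑ c ∈ I, (lfs T c).card)) card
    ⟨B, by rw [mem_filter, mem_powerset]; exact ⟨subset_refl _, hB4⟩⟩
  rw [mem_filter, mem_powerset] at hIm
  obtain ⟨hIB, hIp⟩ := hIm
  have hrem : ∀ v ∈ I, ∑ c ∈ I.erase v, (lfs T c).card < p := by
    intro v hv
    by_contra hcon
    push Not at hcon
    have h1 := hImin (I.erase v) (by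
      rw [mem_filter, mem_powerset]
      exact ⟨(erase_subset _ _).trans hIB, hcon⟩)
    rw [card_erase_of_mem hv] at h1
    have h2 : 0 < I.card := card_pos.mpr ⟨v, hv⟩
    omega
  have hpos : ∀ v ∈ I, 1 ≤ (lfs T v).card := by
    intro v hv
    have h1 := hrem v hv
    have h2 := add_sum_erase I (fun c => (lfs T c).card) hv
    omega
  have hIc : I.card ≤ p ∧ ∑ c ∈ I, (lfs T c).card ≤ p + lm := by
    rcases I.eq_empty_or_nonempty with he | ⟨v, hv⟩
    · rw [he]
      simp
    · have h1 := hrem v hv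
      have h2 := add_sum_erase I (fun c => (lfs T c).card) hv
      have h4 := hlm v
      have h5 : (I.erase v).card ≤ ∑ c ∈ I.erase v, (lfs T c).card := by
        rw [card_eq_sum_ones]
        exact sum_le_sum (fun c hc => hpos c (mem_of_mem_erase hc))
      rw [card_erase_of_mem hv] at h5
      omega
  have hU : (I.biUnion (lfs T)).card = ∑ c ∈ I, (lfs T c).card := by
    apply card_biUnion
    intro x _ y _ hxy
    change Disjoint (lfs T x) (lfs T y)
    rw [disjoint_left]
    intro z hz1 hz2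
    rw [lfs, mem_filter] at hz1 hz2
    apply hxy
    rw [(hpi z hz1.2.2).2.1 x hz1.2.1.symm, (hpi z hz1.2.2).2.1 y hz2.2.1.symm]
  obtain ⟨Lf, hLf1, hLf2⟩ := exists_subset_card_eq (s := I.biUnion (lfs T)) (n := p) (by omega)
  refine ⟨Lf, I, ?_, hLf2, hIB.trans hB1, disjoint_of_subset_left hIB hB2, hIc.1, ?_, ?_, hIc.2⟩
  · intro x hx
    have h1 := hLf1 hx
    rw [mem_biUnion] at h1
    obtain ⟨v, -, hv⟩ := h1
    rw [lfs, mem_filter] at hv
    rw [LF, mem_filter]
    exact ⟨mem_univ _, hv.2.2⟩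
  · intro x hx y hxy
    have h1 := hLf1 hx
    rw [mem_biUnion] at h1
    obtain ⟨v, hvI, hv⟩ := h1
    rw [lfs, mem_filter] at hv
    have h2 := (hpi x hv.2.2).2.1 v hv.2.1.symm
    have h4 := (hpi x hv.2.2).2.1 y hxy
    rw [h4, ← h2]
    exact hvI
  · intro x hx y hy
    exact hB3 x (hIB hx) y (hIB hy)

end Pool.Agent.H43.TC
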