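import Pool.Agent.H43.TC.SClu
import Pool.Agent.H43.TC.ERG
import Pool.Agent.H43.TC.EGe
import Pool.Agent.H43.TC.XAux
import Pool.Agent.H28.TreeClique.Split

set_option autoImplicit false

/-
[H27 TC XAlpha]  A vertex y of degree >= K outside all clusters: every tree embeds.

Notation: d(v) = |nb C v| >= K - h for all v in C (deg_lower); 'low' = d(v) + 1 <= K; for low u:
N(u) = nb C u, S(u) = core G C h u, Q(u) = clu G C C h u, |Q(u)| <= K + h, all of Q(u) is low (hclu).
y is not low, so y is in no Q(u), u low; hence (clu_out, Q' = Q(u)) |nb Q(u) y| + 30 h + 1 <= |Q(u)| <=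
K + h and |nb (C \ Q(u)) y| >= 29 h + 1.
Split: H28 `split` with l = 10 h: (z, A), Closed T z A, 10 h <= |A| <= 20 h - 1. Root c = z; par, rk from
exists_order.
STEP 1. Place z at y and A in C (rg with P = insert z A, Con = A, regions {y} (class 0) and C.erase y
 (class 1); earlier + 1 <= 20 h <= K - h - 1 <= |nb (C.erase y) y'|; par t in insert z A for t in A by
 Closed). Let UA = phi(insert z A), 10 h + 1 <= |UA| <= 20 h.
CASE 1. For every low v: |UA \ N[v]| >= h (N[v] = insert v (nb C v)). Then `ge` with P0 = insert z A: if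
 UA ⊆ U ⊆ C, |U| <= K, v in U: if v is not low, d(v) >= K > |U \ {v}| so there is a free neighbour; if
 v is low, |U ∩ N(v)| <= |U| - 1 - h <= K - 1 - h < d(v) (v itself and the h elements of UA \ N[v] are
 not in N(v)).
CASE 2. Some low v has |UA \ N[v]| <= h - 1. Fix v, Q = Q(v). Elements of UA outside Q: at most
 (h - 1) + |N[v] \ Q| <= (h-1) + |nb C v \ core| <= 3h (v in core ⊆ Q; core_card: < 2h).
 B = univ \ A \ {z}, closed under par except towards z (t in B: par t in B or par t = z), |B| >= K - 20 h.
 Let B0 = the 5h elements of B with smallest rk (or any subset of B with 5 h elements such that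
 t in B0, par t <> z => par t in B0: take the smallest 5h in the order rk; par has smaller rk).
 STEP 2. rg for P = B0, Con = {t in B0 : par t <> z}, Reg t = (C \ Q) \ UA if par t <> z, and
 nb G ((C \ Q) \ UA) y if par t = z, class 0. h1: y' in Reg(par t) is in C \ Q, so |nb (C\Q) y'| >= 28 h
 (clu_out_nb), minus |UA \ Q| <= 3h: >= 25 h >= 5h. h2: |nb (C\Q) y| - 3h >= 26 h >= 5h.
 Together: phi on P0 = insert z A ∪ B0, injective, into C, adjacent along par; U0 = phi(P0).
 STEP 3. For every low v': |U0 \ N[v']| >= h. Suppose not. Then |UA ∩ N[v] ∩ N[v']| >= 10h + 1 - 2h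
 > 4h, and |N[v] \ core(v)| < 2h, same for v' (core_card), so there is c in core(v) ∩ core(v').
 c in core(v) ⊆ Q(v), so d(c) <= K - 1. By core_nn: |N(v) \ N[c]| <= 3h - 1, |N(v') \ N[c]| <= 3h - 1.
 |N[c]| <= K and |N[c] ∩ N(v)| >= K - h - 3h + 1, so |N[c] \ N(v)| <= 4h - 1, and
 |N(v') \ N(v)| <= 7h - 2; symmetrically |N(v) \ N(v')| <= 7h - 2.
 phi(B0) has 5h elements, at most h - 1 outside N[v'], so some x in phi(B0) is in core(v') (< 2h of
 N[v'] are outside the core). |N(v') \ N[x]| <= 3h - 1 (core_nn). core(v) \ N[x] ⊆ {v} ∪ (N(v) \ N(v')) ∪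
 (N(v') \ N[x]): at most 10 h - 2 <= 30 h, so x in clu(v) = Q: contradiction to x in C \ Q.
 STEP 4. `ge` with P0 as in CASE 1.
-/

namespace Pool.Agent.H43.TC

open Finset Classical
open Pool.Agent.H28.TreeClique

variable {V α : Type*}

/-- An initial segment of given size. -/
theorem exists_initial (B : Finset α) (rk : α → ℕ) (n : ℕ) (hn : n ≤ B.card) :
    ∃ B0 ⊆ B, B0.card = n ∧ ∀ t ∈ B0, ∀ t' ∈ B, rk t' < rk t → t' ∈ B0 := by
  induction n with
  | zero => exact ⟨∅, empty_subset _, card_empty, fun t ht => absurd ht (notMem_empty _)⟩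
  | succ n ih =>
    obtain ⟨B0, h1, h2, h3⟩ := ih (by omega)
    have hne : (B \ B0).Nonempty := by
      rw [← card_pos, card_sdiff_of_subset h1]
      omega
    obtain ⟨t0, ht0, hmin⟩ := exists_min_image (B \ B0) rk hne
    rw [mem_sdiff] at ht0
    refine ⟨insert t0 B0, insert_subset ht0.1 h1, ?_, ?_⟩
    · rw [card_insert_of_notMem ht0.2, h2]
    · intro t ht t' ht' hlt
      rw [mem_insert] at ht ⊢
      right
      rcases ht with rfl | ht
      · by_contra hc
        have := hmin t' (mem_sdiff.mpr ⟨ht', hc⟩)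
        omega
      · exact h3 t ht t' ht' hlt

variable [Fintype α]

/-- The final greedy step. -/
theorem fin_ge {K h : ℕ} (T : SimpleGraph α) (hcard : Fintype.card α = K + 1)
    (c : α) (par : α → α)
    (hpar : ∀ x, x ≠ c → T.dist c (par x) + 1 = T.dist c x)
    (hedge : ∀ x y, T.Adj x y → (y = par x ∧ x ≠ c) ∨ (x = par y ∧ y ≠ c))
    (G : SimpleGraph V) (C : Finset V) (hdeg : ∀ u ∈ C, K ≤ (nb G C u).card + h)
    (P0 : Finset α) (hc : c ∈ P0)
    (hP0 : ∀ x ∈ P0, x ≠ c → par x ∈ P0) (φ0 : α → V)
    (hinj : Set.InjOn φ0 (P0 : Set α)) (hmap : ∀ x ∈ P0, φ0 x ∈ C)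
    (hadj : ∀ x ∈ P0, x ≠ c → G.Adj (φ0 x) (φ0 (par x)))
    (hfar : ∀ v ∈ C, (nb G C v).card + 1 ≤ K →
      h ≤ ((P0.image φ0) \ insert v (nb G C v)).card) : Emb T G := by
  refine ge T c par hpar hedge G C P0 hc hP0 φ0 hinj hmap hadj ?_
  intro U hUC hPU hUc v hv
  by_contra hcon
  push Not at hcon
  have hvN : v ∉ nb G C v := by
    intro h1
    rw [nb, mem_filter] at h1
    exact G.loopless.irrefl _ h1.2
  have hNU : nb G C v ⊆ U := by
    intro x hx
    rw [nb, mem_filter] at hx
    exact hcon x hx.1 hx.2
  have h1 : insert v (nb G C v) ⊆ U := insert_subset hv hNU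
  have h2 := card_le_card h1
  rw [card_insert_of_notMem hvN] at h2
  by_cases hlow : (nb G C v).card + 1 ≤ K
  · have h3 := hfar v (hUC hv) hlow
    have h4 : (P0.image φ0) \ insert v (nb G C v) ⊆ U \ insert v (nb G C v) :=
      sdiff_subset_sdiff hPU (subset_refl _)
    have h5 := card_le_card h4
    rw [card_sdiff_of_subset h1, card_insert_of_notMem hvN] at h5
    have h6 := hdeg v (hUC hv)
    omega
  · omega

theorem alpha {K r L q h : ℕ} (P : Par K r L q h) (T : SimpleGraph α) (hT : T.IsTree)
    (hcard : Fintype.card α = K + 1) (G : SimpleGraph V) (C : Finset V)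
    (hth : ∀ u ∈ C, theta K r L ≤ cd G r C u)
    (hclu : ∀ u ∈ C, (nb G C u).card + 1 ≤ K →
      (clu G C C h u).card ≤ K + h ∧ ∀ v ∈ clu G C C h u, (nb G C v).card + 1 ≤ K)
    (y : V) (hyC : y ∈ C) (hy : K ≤ (nb G C y).card) : Emb T G := by
  obtain ⟨-, -, -, -, hbig, hh3, -⟩ := par_facts P
  have hbig' : 10000000 * h ≤ K := by norm_num at hbig; omega
  have : Nonempty V := ⟨y⟩
  have hdeg : ∀ u ∈ C, K ≤ (nb G C u).card + h := fun u hu => deg_lower P G C u (hth u hu)
  obtain ⟨z, A, hA, hA1, hA2⟩ := split T hT (10 * h) (by omega) (by omega)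
  obtain ⟨par, rk, hrk, hpar1, hpar2, hrk2⟩ := exists_order T hT z
  obtain ⟨hzA, hA3⟩ := hA
  have hparA : ∀ t ∈ A, par t ∈ A ∨ par t = z := by
    intro t ht
    exact hA3 t ht _ (hpar1 t (fun h => hzA (h ▸ ht))).1
  have hparA' : ∀ t, t ∉ A → t ≠ z → par t ∉ A := by
    intro t ht htz h
    rcases hA3 _ h t (hpar1 t htz).1.symm with h1 | h1
    · exact ht h1
    · exact htz h1
  have hparrk : ∀ t, t ≠ z → rk (par t) < rk t := by
    intro t ht
    apply hrk2
    have := (hpar1 t ht).2
    omega
  have hpd : ∀ x, x ≠ z → T.dist z (par x) + 1 = T.dist z x := fun x hx => (hpar1 x hx).2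
  have hed : ∀ x y, T.Adj x y → (y = par x ∧ x ≠ z) ∨ (x = par y ∧ y ≠ z) := by
    intro x y hxy
    rcases hpar2 x y hxy with h1 | h1
    · left; exact ⟨h1.1, h1.2.1⟩
    · right; exact ⟨h1.1, h1.2.1⟩
  -- step 1
  set Reg : α → Finset V := fun t => if t = z then {y} else C.erase y with hReg
  set cl : α → ℕ := fun t => if t = z then 0 else 1 with hcl
  have R0 : Reg z = {y} := by simp [hReg]
  have R1 : ∀ t, t ≠ z → Reg t = C.erase y := by
    intro t ht
    simp [hReg, ht]
  have c0 : cl z = 0 := by simp [hcl]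
  have c1 : ∀ t, t ≠ z → cl t = 1 := by
    intro t ht
    simp [hcl, ht]
  have hRC : ∀ t, Reg t ⊆ C := by
    intro t
    by_cases h1 : t = z
    · rw [h1, R0, singleton_subset_iff]
      exact hyC
    · rw [R1 t h1]
      exact erase_subset _ _
  obtain ⟨φA, a1, a2, a3⟩ := rg G (insert z A) rk hrk.injOn par A
    (by
      intro t ht
      have htz : t ≠ z := fun h => hzA (h ▸ ht)
      refine ⟨mem_insert_of_mem ht, ?_, hparrk t htz⟩
      rcases hparA t ht with h1 | h1
      · exact mem_insert_of_mem h1
      · rw [h1]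
        exact mem_insert_self _ _)
    Reg cl
    (by
      intro t _ t' _ hne
      have d : Disjoint ({y} : Finset V) (C.erase y) := by
        rw [disjoint_singleton_left]
        exact notMem_erase _ _
      by_cases h1 : t = z <;> by_cases h2 : t' = z
      · rw [h1, h2] at hne
        exact absurd rfl hne
      · rw [h1, R0, R1 t' h2]
        exact d
      · rw [h2, R0, R1 t h1]
        exact d.symm
      · rw [c1 t h1, c1 t' h2] at hne
        exact absurd rfl hne)
    (by
      intro t ht y' hy'
      have htz : t ≠ z := fun h => hzA (h ▸ ht)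
      have hy'C : y' ∈ C := hRC _ hy'
      rw [R1 t htz]
      have g1 := card_earlier (insert z A) A rk cl t ht (by
        intro t' ht' _ hcc
        rw [mem_insert] at ht'
        rcases ht' with rfl | ht'
        · rw [c0, c1 t htz] at hcc
          omega
        · exact ht')
      have g2 := hdeg y' hy'C
      have g3 : nb G C y' ⊆ insert y ((C.erase y).filter (fun x => G.Adj y' x)) := by
        intro x hx
        rw [nb, mem_filter] at hx
        rw [mem_insert, mem_filter, mem_erase]
        by_cases h : x = y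
        · left; exact h
        · right; exact ⟨⟨h, hx.1⟩, hx.2⟩
      have g4 := (card_le_card g3).trans (card_insert_le _ _)
      omega)
    (by
      intro t ht htA
      rw [mem_insert] at ht
      rcases ht with rfl | ht
      · rw [R0, card_singleton]
        have g1 := card_earlier (insert t A) {t} rk cl t (mem_singleton_self _) (by
          intro t' ht' _ hcc
          rw [mem_singleton]
          by_contra h1
          rw [c0, c1 t' h1] at hcc
          omega)
        rw [card_singleton] at g1
        exact g1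
      · exact absurd ht htA)
  have hφz : φA z = y := by
    have := a2 z (mem_insert_self _ _)
    rw [R0, mem_singleton] at this
    exact this
  have hφAC : ∀ t ∈ insert z A, φA t ∈ C := fun t ht => hRC t (a2 t ht)
  set UA := (insert z A).image φA with hUA
  have hUAc : UA.card = A.card + 1 := by
    rw [hUA, card_image_of_injOn a1, card_insert_of_notMem hzA]
  have hUAC : UA ⊆ C := by
    intro x hx
    rw [hUA, mem_image] at hx
    obtain ⟨t, ht, rfl⟩ := hx
    exact hφAC t ht
  have hadjA : ∀ t ∈ A, G.Adj (φA t) (φA (par t)) := fun t ht => (a3 t ht).symm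
  have hclA : ∀ x ∈ insert z A, x ≠ z → par x ∈ insert z A := by
    intro t ht htz
    rw [mem_insert] at ht
    rcases ht with ht | ht
    · exact absurd ht htz
    · rcases hparA t ht with h1 | h1
      · exact mem_insert_of_mem h1
      · rw [h1]
        exact mem_insert_self _ _
  by_cases hcase : ∀ v ∈ C, (nb G C v).card + 1 ≤ K → h ≤ (UA \ insert v (nb G C v)).card
  · refine fin_ge T hcard z par hpd hed G C hdeg (insert z A) (mem_insert_self _ _) hclA φA a1
      hφAC ?_ hcase
    intro t ht htz
    rw [mem_insert] at ht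
    rcases ht with ht | ht
    · exact absurd ht htz
    · exact hadjA t ht
  push Not at hcase
  obtain ⟨v, hvC, hvlow, hv⟩ := hcase
  set Q := clu G C C h v with hQ
  obtain ⟨hQc, hQlow⟩ := hclu v hvC hvlow
  rw [← hQ] at hQc hQlow
  have hyQ : y ∉ Q := by
    intro h1
    have := hQlow y h1
    omega
  have hcoreQ : core G C h v ⊆ Q := core_sub_clu P G C C (subset_refl _) v hvC
  obtain ⟨k1, k2, k3⟩ := core_card P G C v hvC (hth v hvC) hvlow
  have hvcore : ∀ w, w ∈ core G C h w := by
    intro w
    unfold core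
    exact mem_insert_self _ _
  have hUAQ : (UA \ Q).card + 2 ≤ 3 * h := by
    have g1 : UA \ Q ⊆ (UA \ insert v (nb G C v)) ∪ (nb G C v \ core G C h v) := by
      intro x hx
      rw [mem_sdiff] at hx
      rw [mem_union, mem_sdiff, mem_sdiff, mem_insert]
      have hxc : x ∉ core G C h v := fun h => hx.2 (hcoreQ h)
      by_cases h1 : x = v
      · rw [h1] at hxc
        exact absurd (hvcore v) hxc
      · by_cases h2 : x ∈ nb G C v
        · right; exact ⟨h2, hxc⟩
        · left
          refine ⟨hx.1, ?_⟩
          rintro (h3 | h3)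
          · exact h1 h3
          · exact h2 h3
    have g2 := (card_le_card g1).trans (card_union_le _ _)
    omega
  -- the initial segment
  set B := univ \ insert z A with hB
  have hBc : B.card + (A.card + 1) = K + 1 := by
    rw [hB, ← card_insert_of_notMem hzA, card_sdiff_add_card_eq_card (subset_univ _), card_univ,
      hcard]
  obtain ⟨B0, hB0B, hB0c, hB0⟩ := exists_initial B rk (5 * h) (by omega)
  have hB0m : ∀ t ∈ B0, t ∉ A ∧ t ≠ z := by
    intro t ht
    have := hB0B ht
    rw [hB, mem_sdiff, mem_insert] at this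
    constructor
    · exact fun h => this.2 (Or.inr h)
    · exact fun h => this.2 (Or.inl h)
  have hB0p : ∀ t ∈ B0, par t ≠ z → par t ∈ B0 := by
    intro t ht hpz
    obtain ⟨g1, g2⟩ := hB0m t ht
    apply hB0 t ht _ _ (hparrk t g2)
    rw [hB, mem_sdiff, mem_insert]
    refine ⟨mem_univ _, ?_⟩
    rintro (h1 | h1)
    · exact hpz h1
    · exact hparA' t g1 g2 h1
  -- step 2
  set E := (C \ Q) \ UA with hE
  have hEb : ∀ x, 28 * h ≤ (nb G (C \ Q) x).card → 5 * h ≤ (nb G E x).card := by
    intro x hx
    have g1 : nb G (C \ Q) x ⊆ nb G E x ∪ (UA \ Q) := by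
      intro w hw
      rw [nb, mem_filter, mem_sdiff] at hw
      rw [mem_union, nb, mem_filter, hE, mem_sdiff, mem_sdiff, mem_sdiff]
      by_cases h1 : w ∈ UA
      · right; exact ⟨h1, hw.1.2⟩
      · left; exact ⟨⟨hw.1, h1⟩, hw.2⟩
    have g2 := (card_le_card g1).trans (card_union_le _ _)
    omega
  set Reg' : α → Finset V := fun t => if par t = z then nb G E y else E with hReg'
  have R0' : ∀ t, par t = z → Reg' t = nb G E y := by
    intro t ht
    simp [hReg', ht]
  have R1' : ∀ t, par t ≠ z → Reg' t = E := by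
    intro t ht
    simp [hReg', ht]
  have hR'E : ∀ t, Reg' t ⊆ E := by
    intro t
    by_cases h1 : par t = z
    · rw [R0' t h1]
      exact filter_subset _ _
    · rw [R1' t h1]
  obtain ⟨φB, b1, b2, b3⟩ := rg G B0 rk hrk.injOn par (B0.filter (fun t => par t ≠ z))
    (by
      intro t ht
      rw [mem_filter] at ht
      exact ⟨ht.1, hB0p t ht.1 ht.2, hparrk t (hB0m t ht.1).2⟩)
    Reg' (fun _ => 0)
    (by
      intro t _ t' _ hne
      exact absurd rfl hne)
    (by
      intro t ht y' hy'
      rw [mem_filter] at ht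
      have hy'E := hR'E _ hy'
      rw [hE, mem_sdiff] at hy'E
      rw [R1' t ht.2]
      have g1 := card_earlier B0 B0 rk (fun _ => 0) t ht.1 (fun t' ht' _ _ => ht')
      have hy'C : y' ∈ C := (mem_sdiff.mp hy'E.1).1
      have g2 := clu_out_nb P G C v hvC y' hy'E.1 (hdeg y' hy'C) hQc
      have g3 := hEb y' g2
      unfold nb at g3
      omega)
    (by
      intro t ht htn
      have hpz : par t = z := by
        by_contra h1
        exact htn (mem_filter.mpr ⟨ht, h1⟩)
      rw [R0' t hpz]
      have g1 := card_earlier B0 B0 rk (fun _ => 0) t ht (fun t' ht' _ _ => ht')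
      have g2 := clu_out_nb P G C v hvC y (mem_sdiff.mpr ⟨hyC, hyQ⟩) (hdeg y hyC) hQc
      have g3 := hEb y g2
      omega)
  have hφBE : ∀ t ∈ B0, φB t ∈ E := fun t ht => hR'E t (b2 t ht)
  -- the union
  set φ0 : α → V := fun t => if t ∈ B0 then φB t else φA t with hφ0
  have f1 : ∀ t ∈ B0, φ0 t = φB t := by
    intro t ht
    simp [hφ0, ht]
  have f2 : ∀ t ∈ insert z A, φ0 t = φA t := by
    intro t ht
    have : t ∉ B0 := by
      intro h1
      rw [mem_insert] at ht
      rcases ht with h2 | h2
      · exact (hB0m t h1).2 h2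
      · exact (hB0m t h1).1 h2
    simp [hφ0, this]
  have hinj0 : Set.InjOn φ0 ((insert z A ∪ B0 : Finset α) : Set α) := by
    intro s hs t ht hst
    rw [Finset.mem_coe, mem_union] at hs ht
    rcases hs with hs | hs <;> rcases ht with ht | ht
    · rw [f2 s hs, f2 t ht] at hst
      exact a1 hs ht hst
    · rw [f2 s hs, f1 t ht] at hst
      have g1 := hφBE t ht
      rw [← hst, hE, mem_sdiff] at g1
      exact absurd (mem_image_of_mem φA hs) g1.2
    · rw [f1 s hs, f2 t ht] at hst
      have g1 := hφBE s hs
      rw [hst, hE, mem_sdiff] at g1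
      exact absurd (mem_image_of_mem φA ht) g1.2
    · rw [f1 s hs, f1 t ht] at hst
      exact b1 hs ht hst
  have hmap0 : ∀ x ∈ insert z A ∪ B0, φ0 x ∈ C := by
    intro t ht
    rw [mem_union] at ht
    rcases ht with ht | ht
    · rw [f2 t ht]
      exact hφAC t ht
    · rw [f1 t ht]
      have g1 := hφBE t ht
      rw [hE, mem_sdiff, mem_sdiff] at g1
      exact g1.1.1
  have hcl0 : ∀ x ∈ insert z A ∪ B0, x ≠ z → par x ∈ insert z A ∪ B0 := by
    intro t ht htz
    rw [mem_union] at ht ⊢
    rcases ht with ht | ht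
    · left
      exact hclA t ht htz
    · by_cases h1 : par t = z
      · left
        rw [h1]
        exact mem_insert_self _ _
      · right
        exact hB0p t ht h1
  have hadj0 : ∀ x ∈ insert z A ∪ B0, x ≠ z → G.Adj (φ0 x) (φ0 (par x)) := by
    intro t ht htz
    rw [mem_union] at ht
    rcases ht with ht | ht
    · rw [f2 t ht, f2 _ (hclA t ht htz)]
      rw [mem_insert] at ht
      rcases ht with ht | ht
      · exact absurd ht htz
      · exact hadjA t ht
    · rw [f1 t ht]
      by_cases h1 : par t = z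
      · rw [h1, f2 z (mem_insert_self _ _), hφz]
        have g1 := b2 t ht
        rw [R0' t h1, nb, mem_filter] at g1
        exact g1.2.symm
      · rw [f1 _ (hB0p t ht h1)]
        exact (b3 t (mem_filter.mpr ⟨ht, h1⟩)).symm
  refine fin_ge T hcard z par hpd hed G C hdeg (insert z A ∪ B0)
    (mem_union_left _ (mem_insert_self _ _)) hcl0 φ0 hinj0 hmap0 hadj0 ?_
  -- step 3
  intro v' hv'C hv'low
  by_contra hcon
  push Not at hcon
  set U0 := (insert z A ∪ B0).image φ0 with hU0
  have hUAU0 : UA ⊆ U0 := by
    intro x hx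
    rw [hUA, mem_image] at hx
    obtain ⟨t, ht, rfl⟩ := hx
    rw [← f2 t ht]
    exact mem_image_of_mem φ0 (mem_union_left _ ht)
  obtain ⟨k1', k2', k3'⟩ := core_card P G C v' hv'C (hth v' hv'C) hv'low
  have hex : ∃ c ∈ core G C h v, c ∈ core G C h v' := by
    by_contra hc
    push Not at hc
    have g1 : UA ⊆ ((UA \ insert v (nb G C v)) ∪ (U0 \ insert v' (nb G C v'))) ∪
        ((nb G C v \ core G C h v) ∪ (nb G C v' \ core G C h v')) := by
      intro x hx
      rw [mem_union, mem_union, mem_union, mem_sdiff, mem_sdiff, mem_sdiff, mem_sdiff]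
      by_cases h1 : x ∈ insert v (nb G C v)
      · by_cases h2 : x ∈ insert v' (nb G C v')
        · right
          by_cases h3 : x ∈ core G C h v
          · right
            refine ⟨?_, hc x h3⟩
            rw [mem_insert] at h2
            rcases h2 with h2 | h2
            · exfalso
              apply hc x h3
              rw [h2]
              exact hvcore v'
            · exact h2
          · left
            refine ⟨?_, h3⟩
            rw [mem_insert] at h1
            rcases h1 with h1 | h1
            · exfalso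
              apply h3
              rw [h1]
              exact hvcore v
            · exact h1
        · left; right
          exact ⟨hUAU0 hx, h2⟩
      · left; left
        exact ⟨hx, h1⟩
    have g2 := card_le_card g1
    have g3 := card_union_le ((UA \ insert v (nb G C v)) ∪ (U0 \ insert v' (nb G C v')))
      ((nb G C v \ core G C h v) ∪ (nb G C v' \ core G C h v'))
    have g4 := card_union_le (UA \ insert v (nb G C v)) (U0 \ insert v' (nb G C v'))
    have g5 := card_union_le (nb G C v \ core G C h v) (nb G C v' \ core G C h v')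
    omega
  obtain ⟨c, hcv, hcv'⟩ := hex
  have hcC : c ∈ C := core_sub G C h v hvC hcv
  have hclow := hQlow c (hcoreQ hcv)
  have m1 := (core_nn P G C v hvC c hcv).1
  have m2 := (core_nn P G C v' hv'C c hcv').1
  -- differences with N[c]
  have hgen : ∀ w ∈ C, (nn G (nb G C w) c).card + 1 ≤ 3 * h →
      (insert c (nb G C c) \ nb G C w).card + 1 ≤ 4 * h := by
    intro w hw hwn
    have g1 := hdeg w hw
    have g2 : nb G C w ⊆ (insert c (nb G C c) ∩ nb G C w) ∪ nn G (nb G C w) c := by
      intro x hx
      rw [mem_union, mem_inter, mem_insert, nn, mem_filter]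
      by_cases h1 : x = c
      · left; exact ⟨Or.inl h1, hx⟩
      · by_cases h2 : G.Adj c x
        · left
          refine ⟨Or.inr ?_, hx⟩
          rw [nb, mem_filter] at hx ⊢
          exact ⟨hx.1, h2⟩
        · right; exact ⟨hx, h1, h2⟩
    have g3 := (card_le_card g2).trans (card_union_le _ _)
    have g4 := card_sdiff_add_card_inter (insert c (nb G C c)) (nb G C w)
    have g5 := card_insert_le c (nb G C c)
    omega
  have n1 := hgen v hvC m1
  have n2 := hgen v' hv'C m2
  have hdiff : (nb G C v \ nb G C v').card + 2 ≤ 7 * h := by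
    have g1 : nb G C v \ nb G C v' ⊆ nn G (nb G C v) c ∪ (insert c (nb G C c) \ nb G C v') := by
      intro x hx
      rw [mem_sdiff] at hx
      rw [mem_union, mem_sdiff, mem_insert, nn, mem_filter]
      by_cases h1 : x = c
      · right; exact ⟨Or.inl h1, hx.2⟩
      · by_cases h2 : G.Adj c x
        · right
          refine ⟨Or.inr ?_, hx.2⟩
          have hx1 := hx.1
          rw [nb, mem_filter] at hx1 ⊢
          exact ⟨hx1.1, h2⟩
        · left; exact ⟨hx.1, h1, h2⟩
    have g2 := (card_le_card g1).trans (card_union_le _ _)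
    omega
  have hex2 : ∃ x ∈ B0.image φB, x ∈ core G C h v' := by
    by_contra hc
    push Not at hc
    have g1 : B0.image φB ⊆ (U0 \ insert v' (nb G C v')) ∪ (nb G C v' \ core G C h v') := by
      intro x hx
      have hxc := hc x hx
      rw [mem_union, mem_sdiff, mem_sdiff]
      by_cases h1 : x ∈ insert v' (nb G C v')
      · right
        refine ⟨?_, hxc⟩
        rw [mem_insert] at h1
        rcases h1 with h1 | h1
        · exfalso
          apply hxc
          rw [h1]
          exact hvcore v'
        · exact h1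
      · left
        refine ⟨?_, h1⟩
        rw [mem_image] at hx
        obtain ⟨t, ht, rfl⟩ := hx
        rw [← f1 t ht]
        exact mem_image_of_mem φ0 (mem_union_right _ ht)
    have g2 := (card_le_card g1).trans (card_union_le _ _)
    rw [card_image_of_injOn b1, hB0c] at g2
    omega
  obtain ⟨x, hx, hxc⟩ := hex2
  have hxE : x ∈ E := by
    rw [mem_image] at hx
    obtain ⟨t, ht, rfl⟩ := hx
    exact hφBE t ht
  rw [hE, mem_sdiff, mem_sdiff] at hxE
  apply hxE.1.2
  rw [hQ]
  unfold clu
  rw [mem_filter]
  refine ⟨hxE.1.1, ?_⟩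
  have m3 := (core_nn P G C v' hv'C x hxc).1
  have g1 : nn G (core G C h v) x ⊆
      insert v ((nb G C v \ nb G C v') ∪ nn G (nb G C v') x) := by
    intro w hw
    rw [nn, mem_filter] at hw
    rw [mem_insert, mem_union, mem_sdiff, nn, mem_filter]
    obtain ⟨w1, w2, w3⟩ := hw
    unfold core at w1
    rw [mem_insert, mem_filter] at w1
    rcases w1 with w1 | w1
    · left; exact w1
    · right
      by_cases h1 : w ∈ nb G C v'
      · right; exact ⟨h1, w2, w3⟩
      · left; exact ⟨w1.1, h1⟩
  have g2 := (card_le_card g1).trans (card_insert_le _ _)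
  have g3 := card_union_le (nb G C v \ nb G C v') (nn G (nb G C v') x)
  omega

end Pool.Agent.H43.TC
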