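import Pool.Agent.H43.TC.NBas
import Pool.Agent.H43.TC.TOrd
import Pool.Agent.H43.TC.ERG
import Pool.Agent.H43.TC.EFinA
import Pool.Agent.H43.TC.XAux

set_option autoImplicit false

/-
[H27 TC XOutI]  Type I trees: a union W of components of T - z0 is placed outside Q, z0 at y in Q,
the rest in Q (spanning).

A spread, |A| >= 140 h. A' := A \ W \ {z0}, |A'| >= 140 h - 20 h - 1 >= 119 h >= 3 * 35 h (h >= 3).
|Q| >= K + 1 - 20 h. Root z0; par, rk from exists_order. P = univ \ A'.
Regions and classes: z0: {y}, class 0; t in W: O, class 1; other t: Q.erase y, class 2. Disjoint.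
Con = {t in P : t <> z0, par t in P}.
Structure: t in W => par t in W ∪ {z0} (Closed: par t is a neighbour of t), so t in Con;
t not in W, t <> z0 => par t not in W (otherwise t in W or t = z0).
rg, h1 for t in Con:
 - t in W, par t = z0, y' = y: an earlier vertex of class 1 is some t' in W with rk t' < rk t, so
   dist z0 t' <= dist z0 t = 1 (else rk t < rk t'), hence T.Adj z0 t' (dist 1; t' <> z0), and t' <> t:
   so (earlier) + 1 <= number of roots in W <= |nb O y|.
 - t in W, par t in W, y' in O: not all of W is adjacent to z0 (t is not: dist z0 t = 2 or more), so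
   hdeep gives |W| <= |nb O y'|, and (earlier) + 1 <= |W|.
 - t not in W: par t in P \ W, y' in Q (y' = y or y' in Q.erase y):
   |nb (Q.erase y) y'| >= |Q| - 35 h - 1, and earlier + 1 <= number of class 2 vertices of P
   = K + 1 - |W| - 1 - |A'| <= |Q| - 1 - 119 h.
h2: t = z0: no earlier vertex of class 0, 1 <= |{y}|. t class 2 with par t in A': |Q.erase y| =
 |Q| - 1 >= |Q| - 1 - 119 h.
finishA (m = 35 h): for a in A', b adjacent to a: b not in A' (Spread); b not in W (Closed: else a in W
 or a = z0); so phi b in Q (y in Q if b = z0). hcount: vertices with phi t in Q are outside W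
 (O disjoint from Q): |A'| + (K + 1 - |A'| - |W|) <= |Q|. Edges inside P: {t, par t}, t in Con.
-/

namespace Pool.Agent.H43.TC

open Finset Classical
open Pool.Agent.H28.TreeClique

variable {V α : Type*} [Fintype α]

theorem outI {K r L q h : ℕ} (P : Par K r L q h) (T : SimpleGraph α) (hT : T.IsTree)
    (hcard : Fintype.card α = K + 1) (hI : TypeI T (140 * h)) (G : SimpleGraph V)
    (Q O : Finset V) (hQ : Near G Q (35 * h)) (hQO : Disjoint Q O) (z0 : α) (W : Finset α)
    (hW : Closed T z0 W) (hWle : W.card ≤ 20 * h) (hcnt : K + 1 ≤ Q.card + W.card) (y : V)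
    (hy : y ∈ Q) (hroots : (W.filter (fun x => T.Adj z0 x)).card ≤ (nb G O y).card)
    (hdeep : (∀ t ∈ W, T.Adj z0 t) ∨ (∀ x ∈ O, W.card ≤ (nb G O x).card)) : Emb T G := by
  obtain ⟨-, -, -, -, hbig, hh3, -⟩ := par_facts P
  obtain ⟨A, hAs, hAc⟩ := hI
  obtain ⟨sp1, sp2, sp3⟩ := hAs
  have : Nonempty V := ⟨y⟩
  obtain ⟨par, rk, hrk, hpar1, hpar2, hrk2⟩ := exists_order T hT z0
  obtain ⟨hz0W, hW2⟩ := hW
  set A' := (A \ W).erase z0 with hA'
  have hA'A : ∀ a ∈ A', a ∈ A ∧ a ∉ W ∧ a ≠ z0 := by
    intro a ha
    rw [hA', mem_erase, mem_sdiff] at ha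
    exact ⟨ha.2.1, ha.2.2, ha.1⟩
  have hA'c : 119 * h ≤ A'.card := by
    have h1 : A ⊆ insert z0 (A' ∪ W) := by
      intro a ha
      rw [mem_insert, mem_union, hA', mem_erase, mem_sdiff]
      by_cases h1 : a = z0
      · left; exact h1
      · by_cases h2 : a ∈ W
        · right; right; exact h2
        · right; left; exact ⟨h1, ha, h2⟩
    have h2 := card_le_card h1
    have h3 := card_insert_le z0 (A' ∪ W)
    have h4 := card_union_le A' W
    omega
  have hPA : (univ \ A').card + A'.card = K + 1 := by
    rw [card_sdiff_add_card_eq_card (subset_univ _), card_univ, hcard]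
  have hmem : ∀ t, t ∉ A' → t ∈ univ \ A' := fun t ht => mem_sdiff.mpr ⟨mem_univ _, ht⟩
  have hmem' : ∀ t, t ∈ univ \ A' → t ∉ A' := fun t ht => (mem_sdiff.mp ht).2
  have hWP : ∀ t ∈ W, t ∈ univ \ A' := fun t ht => hmem t (fun h => (hA'A t h).2.1 ht)
  have hz0P : z0 ∈ univ \ A' := hmem z0 (fun h => (hA'A z0 h).2.2 rfl)
  have hparW : ∀ t ∈ W, par t ∈ W ∨ par t = z0 := by
    intro t ht
    exact hW2 t ht _ (hpar1 t (fun h => hz0W (h ▸ ht))).1
  have hparW' : ∀ t, t ∉ W → t ≠ z0 → par t ∉ W := by
    intro t ht htz h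
    rcases hW2 _ h t (hpar1 t htz).1.symm with h1 | h1
    · exact ht h1
    · exact htz h1
  set Reg : α → Finset V := fun t => if t = z0 then {y} else if t ∈ W then O else Q.erase y
    with hReg
  set cl : α → ℕ := fun t => if t = z0 then 0 else if t ∈ W then 1 else 2 with hcl
  have R0 : Reg z0 = {y} := by simp [hReg]
  have R1 : ∀ t ∈ W, Reg t = O := by
    intro t ht
    have : t ≠ z0 := fun h => hz0W (h ▸ ht)
    simp [hReg, this, ht]
  have R2 : ∀ t, t ∉ W → t ≠ z0 → Reg t = Q.erase y := by
    intro t ht h
    simp [hReg, h, ht]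
  have c0 : cl z0 = 0 := by simp [hcl]
  have c1 : ∀ t ∈ W, cl t = 1 := by
    intro t ht
    have : t ≠ z0 := fun h => hz0W (h ▸ ht)
    simp [hcl, this, ht]
  have c2 : ∀ t, t ∉ W → t ≠ z0 → cl t = 2 := by
    intro t ht h
    simp [hcl, h, ht]
  have htri : ∀ t, t = z0 ∨ t ∈ W ∨ (t ∉ W ∧ t ≠ z0) := by
    intro t
    by_cases h1 : t = z0
    · left; exact h1
    · by_cases h2 : t ∈ W
      · right; left; exact h2
      · right; right; exact ⟨h2, h1⟩
  have hRQ : ∀ t, t ∉ W → Reg t ⊆ Q := by
    intro t ht
    rcases htri t with h1 | h1 | h1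
    · rw [h1, R0, singleton_subset_iff]
      exact hy
    · exact absurd h1 ht
    · rw [R2 t h1.1 h1.2]
      exact erase_subset _ _
  set S2 := ((univ \ A') \ W).erase z0 with hS2
  have hS2c : S2.card + 1 + W.card + A'.card = K + 1 := by
    have h1 : W ⊆ univ \ A' := fun t ht => hWP t ht
    have h2 : ((univ \ A') \ W).card + W.card = (univ \ A').card :=
      card_sdiff_add_card_eq_card h1
    have h3 : z0 ∈ (univ \ A') \ W := mem_sdiff.mpr ⟨hz0P, hz0W⟩
    have h4 := card_erase_add_one h3
    rw [← hS2] at h4
    omega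
  have hS2m : ∀ t ∈ univ \ A', cl t = 2 → t ∈ S2 := by
    intro t ht h
    rw [hS2, mem_erase, mem_sdiff]
    rcases htri t with h1 | h1 | h1
    · rw [h1, c0] at h
      omega
    · rw [c1 t h1] at h
      omega
    · exact ⟨h1.2, ht, h1.1⟩
  have hWm : ∀ t, cl t = 1 → t ∈ W := by
    intro t h
    rcases htri t with h1 | h1 | h1
    · rw [h1, c0] at h
      omega
    · exact h1
    · rw [c2 t h1.1 h1.2] at h
      omega
  have hzm : ∀ t, cl t = 0 → t = z0 := by
    intro t h
    rcases htri t with h1 | h1 | h1
    · exact h1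
    · rw [c1 t h1] at h
      omega
    · rw [c2 t h1.1 h1.2] at h
      omega
  obtain ⟨φ, i1, i2, i3⟩ := rg G (univ \ A') rk hrk.injOn par
    ((univ \ A').filter (fun t => t ≠ z0 ∧ par t ∈ univ \ A'))
    (by
      intro t ht
      rw [mem_filter] at ht
      refine ⟨ht.1, ht.2.2, hrk2 _ _ ?_⟩
      have := (hpar1 t ht.2.1).2
      omega)
    Reg cl
    (by
      intro t _ t' _ hne
      have d1 : Disjoint ({y} : Finset V) O := by
        rw [disjoint_singleton_left]
        exact fun h => disjoint_left.mp hQO hy h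
      have d2 : Disjoint ({y} : Finset V) (Q.erase y) := by
        rw [disjoint_singleton_left]
        exact notMem_erase _ _
      have d3 : Disjoint O (Q.erase y) := by
        rw [disjoint_left]
        intro x hx hx'
        exact disjoint_left.mp hQO (mem_of_mem_erase hx') hx
      rcases htri t with h1 | h1 | h1 <;> rcases htri t' with h2 | h2 | h2
      · rw [h1, h2] at hne
        exact absurd rfl hne
      · rw [h1, R0, R1 t' h2]
        exact d1
      · rw [h1, R0, R2 t' h2.1 h2.2]
        exact d2
      · rw [h2, R0, R1 t h1]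
        exact d1.symm
      · rw [c1 t h1, c1 t' h2] at hne
        exact absurd rfl hne
      · rw [R1 t h1, R2 t' h2.1 h2.2]
        exact d3
      · rw [h2, R0, R2 t h1.1 h1.2]
        exact d2.symm
      · rw [R1 t' h2, R2 t h1.1 h1.2]
        exact d3.symm
      · rw [c2 t h1.1 h1.2, c2 t' h2.1 h2.2] at hne
        exact absurd rfl hne)
    (by
      intro t ht y' hy'
      rw [mem_filter] at ht
      obtain ⟨htP, htz, htp⟩ := ht
      obtain ⟨hadjp, hdist⟩ := hpar1 t htz
      by_cases htW : t ∈ W
      · rw [R1 t htW]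
        rcases hparW t htW with h1 | h1
        · rw [R1 _ h1] at hy'
          rcases hdeep with h2 | h2
          · exfalso
            have h3 := SimpleGraph.dist_eq_one_iff_adj.mpr (h2 t htW)
            have h4 := SimpleGraph.dist_eq_one_iff_adj.mpr (h2 _ h1)
            omega
          · refine le_trans (card_earlier _ W rk cl t htW ?_) (h2 y' hy')
            intro t' _ _ h4
            rw [c1 t htW] at h4
            exact hWm t' h4
        · rw [h1, R0, mem_singleton] at hy'
          rw [hy']
          refine le_trans (card_earlier _ (W.filter (fun x => T.Adj z0 x)) rk cl t ?_ ?_) hroots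
          · rw [mem_filter]
            refine ⟨htW, ?_⟩
            rw [h1] at hadjp
            exact hadjp.symm
          · intro t' _ h3 h4
            rw [c1 t htW] at h4
            have h5 := hWm t' h4
            rw [mem_filter]
            refine ⟨h5, ?_⟩
            have h6 : t' ≠ z0 := fun h => hz0W (h ▸ h5)
            have h7 := (hpar1 t' h6).2
            rw [h1, SimpleGraph.dist_self] at hdist
            have h8 : ¬ T.dist z0 t < T.dist z0 t' := fun h => by
              have := hrk2 _ _ h
              omega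
            exact SimpleGraph.dist_eq_one_iff_adj.mp (by omega)
      · rw [R2 t htW htz]
        have h1 : y' ∈ Q := hRQ _ (hparW' t htW htz) hy'
        have h2 := near_adj_erase (z := y) hQ h1
        have h3 := card_earlier (univ \ A') S2 rk cl t (hS2m t htP (c2 t htW htz))
          (by
            intro t' ht' _ h4
            rw [c2 t htW htz] at h4
            exact hS2m t' ht' h4)
        omega)
    (by
      intro t ht htC
      rcases htri t with h1 | h1 | h1
      · rw [h1, R0, card_singleton]
        have h2 := card_earlier (univ \ A') {z0} rk cl z0 (mem_singleton_self _)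
          (by
            intro t' _ _ h4
            rw [c0] at h4
            rw [mem_singleton]
            exact hzm t' h4)
        rw [card_singleton] at h2
        exact h2
      · exfalso
        apply htC
        rw [mem_filter]
        refine ⟨ht, fun h => hz0W (h ▸ h1), ?_⟩
        rcases hparW t h1 with h2 | h2
        · exact hWP _ h2
        · rw [h2]
          exact hz0P
      · rw [R2 t h1.1 h1.2]
        have h3 := card_earlier (univ \ A') S2 rk cl t (hS2m t ht (c2 t h1.1 h1.2))
          (by
            intro t' ht' _ h4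
            rw [c2 t h1.1 h1.2] at h4
            exact hS2m t' ht' h4)
        have h4 := card_erase_add_one hy
        omega)
  refine finishA T G A' φ Q (35 * h) hQ ?_ ?_ ?_ ?_ ?_ (by omega) ?_
  · intro a ha b hab
    obtain ⟨a1, a2, a3⟩ := hA'A a ha
    have hb : b ∉ A' := fun h => sp2 a a1 b (hA'A b h).1 hab
    have hbW : b ∉ W := by
      intro h
      rcases hW2 b h a hab.symm with h1 | h1
      · exact a2 h1
      · exact a3 h1
    exact ⟨hb, hRQ b hbW (i2 b (hmem b hb))⟩
  · intro a ha
    exact sp1 a (hA'A a ha).1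
  · intro a ha a' ha' b h1 h2
    exact sp3 a (hA'A a ha).1 a' (hA'A a' ha').1 b h1 h2
  · intro x hx y hy hxy
    exact i1 (mem_coe.mpr (hmem x hx)) (mem_coe.mpr (hmem y hy)) hxy
  · intro x y hx hy hxy
    rcases hpar2 x y hxy with ⟨h1, h2, -⟩ | ⟨h1, h2, -⟩
    · have := i3 x (mem_filter.mpr ⟨hmem x hx, h2, by rw [← h1]; exact hmem y hy⟩)
      rw [← h1] at this
      exact this.symm
    · have := i3 y (mem_filter.mpr ⟨hmem y hy, h2, by rw [← h1]; exact hmem x hx⟩)
      rw [← h1] at this
      exact this
  · have h1 : (univ.filter (fun t => t ∉ A' ∧ φ t ∈ Q)).card ≤ ((univ \ A') \ W).card := by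
      apply card_le_card
      intro t ht
      rw [mem_filter] at ht
      rw [mem_sdiff]
      refine ⟨hmem t ht.2.1, fun h => ?_⟩
      have h2 := i2 t (hWP t h)
      rw [R1 t h] at h2
      exact disjoint_left.mp hQO ht.2.2 h2
    have h2 : ((univ \ A') \ W).card + W.card = (univ \ A').card :=
      card_sdiff_add_card_eq_card (fun t ht => hWP t ht)
    omega

end Pool.Agent.H43.TC
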