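import Pool.Agent.H43.TC.XBigI
import Pool.Agent.H43.TC.XOutI
import Pool.Agent.H43.TC.TSplit

set_option autoImplicit false

/-
[H27 TC XBeta1]  Type I: a vertex of degree >= K inside a cluster.
If K + 1 <= |Q|: bigI. Otherwise p := K + 1 - |Q|, 1 <= p <= 3h - 1 (hlow). |nb C y| = |nb Q y| +
|nb (C \ Q) y| and |nb Q y| <= |Q| - 1, so |nb (C\Q) y| >= K - |Q| + 1 = p. split2 with l = p:
(z0, W), p <= |W| <= 2p - 1 <= 6h, at most p roots. outI with O = C \ Q: |W| <= 20 h; K + 1 <= |Q| + |W|;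
hdeep right: |W| <= 6 h <= 28 h <= |nb (C\Q) x|.
-/

namespace Pool.Agent.H43.TC

open Finset Classical
open Pool.Agent.H28.TreeClique

variable {V α : Type*} [Fintype α]

theorem beta1 {K r L q h : ℕ} (P : Par K r L q h) (T : SimpleGraph α) (hT : T.IsTree)
    (hcard : Fintype.card α = K + 1) (hI : TypeI T (140 * h)) (G : SimpleGraph V)
    (C Q : Finset V) (hQC : Q ⊆ C) (hQ : Near G Q (35 * h)) (hlow : K + 2 ≤ Q.card + 3 * h)
    (hup : Q.card ≤ K + h) (hout : ∀ x ∈ C \ Q, 28 * h ≤ (nb G (C \ Q) x).card) (y : V)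
    (hyQ : y ∈ Q) (hy : K ≤ (nb G C y).card) : Emb T G := by
  obtain ⟨-, -, -, -, hbig, hh3, -⟩ := par_facts P
  by_cases hle : K + 1 ≤ Q.card
  · exact bigI P T hT hcard hI G Q hQ hle
  push Not at hle
  obtain ⟨p, hp⟩ : ∃ p, p + Q.card = K + 1 := ⟨K + 1 - Q.card, by omega⟩
  -- neighbours of y outside Q
  have hyO : p ≤ (nb G (C \ Q) y).card := by
    have h1 : nb G C y ⊆ nb G (C \ Q) y ∪ Q.erase y := by
      intro x hx
      unfold nb at hx ⊢
      rw [mem_filter] at hx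
      rw [mem_union, mem_filter, mem_sdiff, mem_erase]
      by_cases h : x ∈ Q
      · right
        exact ⟨fun h' => by rw [h'] at hx; exact hx.2.ne rfl, h⟩
      · left
        exact ⟨⟨hx.1, h⟩, hx.2⟩
    have h2 := (card_le_card h1).trans (card_union_le _ _)
    have h3 := card_erase_add_one hyQ
    omega
  obtain ⟨z0, W, hW, hW1, hW2, hW3⟩ := split2 T hT p (by omega) (by omega)
  refine outI P T hT hcard hI G Q (C \ Q) hQ ?_ z0 W hW (by omega) (by omega) y hyQ
    (hW3.trans hyO) (Or.inr ?_)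
  · rw [disjoint_left]
    intro x hx hx'
    exact (mem_sdiff.mp hx').2 hx
  · intro x hx
    have := hout x hx
    omega

end Pool.Agent.H43.TC
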