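import Pool.Agent.H43.TC.NBas
import Pool.Agent.H43.TC.TOrd
import Pool.Agent.H43.TC.ERG
import Pool.Agent.H43.TC.EFinA
import Pool.Agent.H43.TC.XAux

set_option autoImplicit false

/-
[H27 TC XBigI]  Type I trees embed in a near-clique with at least |T| = K + 1 vertices.

A spread with |A| >= 140 h; A' := A. Root c = any vertex, par, rk from exists_order. P = univ \ A',
Con = {t in P : t <> c, par t in P}, Reg t = Q, cl t = 0. rg: number of earlier vertices + 1 <= |P|
= K + 1 - |A'| <= K + 1 - 140 h, while |nb Q y| = |Q| - (non-neighbours) >= K + 1 - 35 h and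
|Q| >= K + 1 (h >= 3). Edges of T inside P are {t, par t} with t in Con (exists_order, third part).
finishA with m = 35 h: 3 m = 105 h <= |A'|; hA1, hA3 from Spread; positions are all in Q;
hcount: |A'| + (number of t not in A') = K + 1 <= |Q|. Nonempty V from Q nonempty.
-/

namespace Pool.Agent.H43.TC

open Finset Classical
open Pool.Agent.H28.TreeClique

variable {V α : Type*} [Fintype α]

theorem bigI {K r L q h : ℕ} (P : Par K r L q h) (T : SimpleGraph α) (hT : T.IsTree)
    (hcard : Fintype.card α = K + 1) (hI : TypeI T (140 * h)) (G : SimpleGraph V) (Q : Finset V)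
    (hQ : Near G Q (35 * h)) (hle : K + 1 ≤ Q.card) : Emb T G := by
  obtain ⟨-, -, -, -, hbig, hh3, -⟩ := par_facts P
  obtain ⟨A, hAs, hAc⟩ := hI
  obtain ⟨sp1, sp2, sp3⟩ := hAs
  obtain ⟨c⟩ : Nonempty α := Fintype.card_pos_iff.mp (by omega)
  obtain ⟨v0, hv0⟩ : Q.Nonempty := card_pos.mp (by omega)
  have : Nonempty V := ⟨v0⟩
  obtain ⟨par, rk, hrk, hpar1, hpar2, hrk2⟩ := exists_order T hT c
  have hPA : (univ \ A).card + A.card = K + 1 := by
    rw [card_sdiff_add_card_eq_card (subset_univ _), card_univ, hcard]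
  obtain ⟨φ, i1, i2, i3⟩ := rg G (univ \ A) rk hrk.injOn par
    ((univ \ A).filter (fun t => t ≠ c ∧ par t ∈ univ \ A))
    (by
      intro t ht
      rw [mem_filter] at ht
      refine ⟨ht.1, ht.2.2, hrk2 _ _ ?_⟩
      have := (hpar1 t ht.2.1).2
      omega)
    (fun _ => Q) (fun _ => 0)
    (by
      intro t _ t' _ h
      exact absurd rfl h)
    (by
      intro t ht y hy
      rw [mem_filter] at ht
      have h1 := card_earlier (univ \ A) (univ \ A) rk (fun _ => 0) t ht.1
        (fun t' ht' _ _ => ht')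
      have h2 := near_adj hQ hy
      omega)
    (by
      intro t ht _
      have h1 := card_earlier (univ \ A) (univ \ A) rk (fun _ => 0) t ht
        (fun t' ht' _ _ => ht')
      omega)
  have hmem : ∀ t, t ∉ A → t ∈ univ \ A := fun t ht => mem_sdiff.mpr ⟨mem_univ _, ht⟩
  refine finishA T G A φ Q (35 * h) hQ ?_ sp1 ?_ ?_ ?_ (by omega) ?_
  · intro a ha b hab
    have hb : b ∉ A := fun h => sp2 a ha b h hab
    exact ⟨hb, i2 b (hmem b hb)⟩
  · intro a ha a' ha' b h1 h2
    exact sp3 a ha a' ha' b h1 h2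
  · intro x hx y hy hxy
    exact i1 (mem_coe.mpr (hmem x hx)) (mem_coe.mpr (hmem y hy)) hxy
  · intro x y hx hy hxy
    rcases hpar2 x y hxy with ⟨h1, h2, -⟩ | ⟨h1, h2, -⟩
    · have := i3 x (mem_filter.mpr ⟨hmem x hx, h2, by rw [← h1]; exact hmem y hy⟩)
      rw [← h1] at this
      exact this.symm
    · have := i3 y (mem_filter.mpr ⟨hmem y hy, h2, by rw [← h1]; exact hmem x hx⟩)
      rw [← h1] at this
      exact this
  · have h1 : (univ.filter (fun t => t ∉ A ∧ φ t ∈ Q)).card ≤ (univ \ A).card := by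
      apply card_le_card
      intro t ht
      rw [mem_filter] at ht
      exact hmem t ht.2.1
    omega

end Pool.Agent.H43.TC
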