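import Pool.Agent.H43.TC.SClu

set_option autoImplicit false

/-
[H27 TC YBase]  Facts on F K r n = (n/K) C(K,r) + C(n % K, r) and the easy consequences of
minimality. hmin: every proper subset satisfies the bound; hbad: S does not.
F_mono: from F_add with m = 1 and induction (F_add : F d r n + m.choose r <= F d r (n+m)).
F_sub: n = (n - K) + K: (n/K) = (n-K)/K + 1, same remainder.
F_incr: b = n % K, b + t < K: n - K + t = (n/K - 1) K + (b + t), so
 F(n-K+t) = (n/K - 1) W + C(b+t, r), and C(b+t,r) <= C(b,r) + t C(b+t, r-1) (Pascal, induction on t).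
y_card: if |S| < K then F = C(|S|, r) >= |KS S|; if |S| = K then F = C(K,r) (+ C(0,r) = 0).
y_cross: |Q| = K, Q ⊆ S. If no edge goes from Q to S \ Q, every clique of S lies in Q or in S \ Q, so
 |KS S| <= |KS Q| + |KS (S \ Q)| <= C(K,r) + F(|S| - K) = F(|S|).
-/

namespace Pool.Agent.H43.TC

open Finset Classical
open Pool.Agent.H28.TreeClique

variable {V : Type*}

theorem F_mono {K r L q h : ℕ} (P : Par K r L q h) {n n' : ℕ} (hn : n ≤ n') :
    F K r n ≤ F K r n' := by
  obtain ⟨hr, hrK, -⟩ := par_facts P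
  induction n', hn using Nat.le_induction with
  | base => exact le_rfl
  | succ m hm ih =>
    have h1 := F_add K r m 1 (by omega) (by omega) (by omega)
    omega

theorem F_sub {K r L q h : ℕ} (P : Par K r L q h) {n : ℕ} (hn : K ≤ n) :
    F K r (n - K) + K.choose r = F K r n := by
  obtain ⟨hr, hrK, -⟩ := par_facts P
  obtain ⟨m, rfl⟩ := Nat.exists_eq_add_of_le hn
  have e1 : K + m - K = m := by omega
  rw [e1]
  unfold F
  rw [Nat.add_div_left m (by omega), Nat.add_mod_left, add_mul, one_mul]
  omega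

lemma choose_incr (b t r : ℕ) (hr : 1 ≤ r) :
    (b + t).choose r ≤ b.choose r + t * (b + t).choose (r - 1) := by
  obtain ⟨s, rfl⟩ : ∃ s, r = s + 1 := ⟨r - 1, by omega⟩
  rw [Nat.add_sub_cancel]
  induction t with
  | zero => simp
  | succ t ih =>
    have e1 : (b + (t + 1)).choose (s + 1) = (b + t).choose s + (b + t).choose (s + 1) :=
      Nat.choose_succ_succ _ _
    have e2 : (b + t).choose s ≤ (b + (t + 1)).choose s := Nat.choose_le_choose _ (by omega)
    have e3 : t * (b + t).choose s ≤ t * (b + (t + 1)).choose s := Nat.mul_le_mul_left _ e2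
    rw [e1, add_mul, one_mul]
    omega

theorem F_incr {K r L q h : ℕ} (P : Par K r L q h) {n : ℕ} (hn : K ≤ n) (t : ℕ)
    (ht : n % K + t < K) :
    F K r (n - K + t) + K.choose r ≤ F K r n + t * (n % K + t).choose (r - 1) := by
  obtain ⟨hr, hrK, -⟩ := par_facts P
  have h1 := F_sub P hn
  obtain ⟨m, rfl⟩ := Nat.exists_eq_add_of_le hn
  have e1 : K + m - K = m := by omega
  rw [e1] at h1 ⊢
  rw [Nat.add_mod_left] at ht ⊢
  have h2 : F K r (m + t) ≤ F K r m + t * (m % K + t).choose (r - 1) := by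
    unfold F
    have h3 := Nat.div_add_mod m K
    have h4 : (m + t) / K = m / K := by
      have : m + t = K * (m / K) + (m % K + t) := by omega
      rw [this, Nat.mul_add_div (by omega), Nat.div_eq_of_lt ht, add_zero]
    have h5 : (m + t) % K = m % K + t := by
      have : m + t = K * (m / K) + (m % K + t) := by omega
      rw [this, Nat.mul_add_mod, Nat.mod_eq_of_lt ht]
    rw [h4, h5]
    have := choose_incr (m % K) t r (by omega)
    omega
  omega

theorem y_card {K r L q h : ℕ} (P : Par K r L q h) (G : SimpleGraph V) (S : Finset V)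
    (hbad : F K r S.card < (KS G r S).card) : K + 1 ≤ S.card := by
  obtain ⟨hr, hrK, -⟩ := par_facts P
  by_contra hcon
  push Not at hcon
  have h1 := ks_le_choose G r S
  have h2 : S.card.choose r ≤ F K r S.card := by
    by_cases hlt : S.card < K
    · unfold F
      rw [Nat.div_eq_of_lt hlt, Nat.mod_eq_of_lt hlt]
      omega
    · have : S.card = K := by omega
      rw [this]
      unfold F
      rw [Nat.div_self (by omega), one_mul]
      exact Nat.le_add_right _ _
  omega

theorem y_cross {K r L q h : ℕ} (P : Par K r L q h) (G : SimpleGraph V) (S Q : Finset V)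
    (hQS : Q ⊆ S) (hQ : Q.card = K)
    (hmin : ∀ S' ⊂ S, (KS G r S').card ≤ F K r S'.card)
    (hbad : F K r S.card < (KS G r S).card) : ∃ y ∈ Q, ∃ x ∈ S \ Q, G.Adj y x := by
  obtain ⟨hr, hrK, -⟩ := par_facts P
  by_contra hcon
  push Not at hcon
  have h1 : KS G r S ⊆ KS G r Q ∪ KS G r (S \ Q) := by
    intro C hC
    rw [mem_union]
    have hC' := hC
    rw [mem_KS] at hC'
    by_cases h2 : C ⊆ Q
    · left
      rw [mem_KS]
      exact ⟨⟨h2, hC'.1.2⟩, hC'.2⟩
    · right
      rw [not_subset] at h2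
      obtain ⟨x, hxC, hxQ⟩ := h2
      rw [mem_KS]
      refine ⟨⟨?_, hC'.1.2⟩, hC'.2⟩
      intro y hyC
      rw [mem_sdiff]
      refine ⟨hC'.1.1 hyC, fun hyQ => ?_⟩
      have hne : y ≠ x := by
        rintro rfl
        exact hxQ hyQ
      exact hcon y hyQ x (mem_sdiff.mpr ⟨hC'.1.1 hxC, hxQ⟩) (hC'.2 hyC hxC hne)
  have h2 := (card_le_card h1).trans (card_union_le _ _)
  have h3 := ks_le_choose G r Q
  rw [hQ] at h3
  have hne : Q.Nonempty := card_pos.mp (by omega)
  obtain ⟨y, hy⟩ := hne
  have h4 := hmin (S \ Q) ⟨sdiff_subset, fun hc => (mem_sdiff.mp (hc (hQS hy))).2 hy⟩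
  rw [card_sdiff_of_subset hQS, hQ] at h4
  have h5 := F_sub P (n := S.card) (by rw [← hQ]; exact card_le_card hQS)
  omega

end Pool.Agent.H43.TC
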