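import Pool.Agent.H43.TC.NBad
import Pool.Agent.H43.TC.TOrd
import Pool.Agent.H43.TC.TLeaf
import Pool.Agent.H43.TC.ERGP
import Pool.Agent.H43.TC.EFinB
import Pool.Agent.H43.TC.ZGen
import Pool.Agent.H43.TC.ZAux

set_option autoImplicit false

/-
[H27 TC ZE3]  Final embedding, type II: kap leaves are placed outside Q.

m = 35 h. l1 = max |lfs T c|, attained at z1 in NL, 1 <= l1 <= 1541 h. |NL| <= 1540 h, |LF| >= K + 1 - 1540 h.
leaf_sel with Ex = {z1}, p = kap, lm = l1: Lf (kap leaves), I ⊆ NL \ {z1}, |I| <= kap, independent,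
neighbours of Lf in I, sum_I |lfs| <= kap + l1. (2 kap + l1 <= |LF|.)
Y ⊆ Ys with |Y| = 2 kap, each y in Y has at least 2 kap neighbours in O.
Atyp = {v in Q : kap < |{y in Y : not Adj v y}|}, |Atyp| <= 70 h (see ZE1); v in Q \ Atyp: |nb Y v| >= kap.
v0: an element of {v in Q : K <= |nb Q v| + kap} not in Y and not in Atyp (16 * count >= K and
 2 kap + 70 h < K/16).
P0 = NL ∪ Lf, L0 = lfs z1, Sl = LF \ Lf \ lfs z1 (Lf and lfs z1 are disjoint: neighbours of Lf are in I, z1
not in I). Root z1 at v0. par, rk. Con = P0 \ {z1}; par t in NL for t in NL \ {z1}; par t in I for t in Lf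
(its only neighbour).
Regions: z1: {v0} (class 0); Lf: O (class 1); I: Y (class 2); NL \ I \ {z1}: Q \ Y \ Atyp \ {v0} (class 3) = PC.
lam t = |lfs t|, lm = l1, wt = 1, g0 = 70 h.
 t in Lf: y' in Y: earlier + 1 <= kap <= 2 kap <= |nb O y'|.
 t in I: par t in NL \ I: y' = v0 or y' in Q \ Atyp: |nb Y y'| >= kap >= |I| >= earlier + 1.
 t in PC: y' in Q: |nb (Q \ Y \ Atyp \ {v0}) y'| >= |Q| - 2 kap - 70 h - 1 - 35 h >= 1540 h + 32 * 35 h.
Potential: sum_{PC} |lfs| = |LF| - l1 - sum_I |lfs| >= K + 1 - 1540 h - 1541 h - (kap + 1541 h) >= K/2 + 140 h; so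
 N = (sum - 140 h)/l1 >= K/(2 l1); |B| 4^N <= |Q| <= K + h <= 4K; bad1: 4 |B| <= l1.
finishB (m = 35h, z0 := z1): for l in Sl: pi l in NL, pi l <> z1, phi (pi l) in Q. Bd ⊆ B (slots at t in PC
 contain all of lfs t: a leaf at t in PC is not in Lf and not in lfs z1).
 |Q \ phi(P0)| >= |Q| - |NL|, |Sl| = K + 1 - |NL| - kap - l1: difference >= |Q| + kap + l1 - K - 1 >= l1 >= |Bd|.
 Cv = ∅, S' = nb G Q v0. |phi(P0) ∩ S'| <= |NL| - 1 (Lf is placed in O, disjoint from Q; phi z1 = v0 not in S').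
 l1 + (|NL| - 1) + |Sl| = K - kap <= |nb Q v0|.
-/

namespace Pool.Agent.H43.TC

open Finset Classical
open Pool.Agent.H28.TreeClique

variable {V α : Type*} [Fintype α]

theorem e3 {K r L q h : ℕ} (P : Par K r L q h) (T : SimpleGraph α) (hT : T.IsTree)
    (hcard : Fintype.card α = K + 1) (hII : TypeII T (1540 * h) (1541 * h)) (G : SimpleGraph V)
    (Q O : Finset V) (hQ : Near G Q (35 * h)) (hQO : Disjoint Q O) (hup : Q.card ≤ K + h)
    (kap : ℕ) (hk1 : 1 ≤ kap) (hk : kap ≤ 30 * q) (hcnt : K + 1 ≤ Q.card + kap)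
    (hYs : 2 * kap ≤ (Q.filter (fun y => 2 * kap ≤ (nb G O y).card)).card)
    (hGam : K ≤ 16 * (Q.filter (fun v => K ≤ (nb G Q v).card + kap)).card) : Emb T G := by
  obtain ⟨hr, hrK, hq, hqh, hbig, hh3, -⟩ := par_facts P
  obtain ⟨hNLc, hlfs⟩ := hII
  have h3 : 3 ≤ Fintype.card α := by omega
  have hNLF := card_NL_LF T
  rw [hcard] at hNLF
  obtain ⟨z1, hz1, hl1, hmax⟩ := exists_z1 T hT h3 (card_pos.mp (by omega))
  have hl1h := hlfs z1
  obtain ⟨Lf, I, hLf, hLfc, hIN, hIz, hIc, hLI, hII, hIs⟩ := leaf_sel T hT h3 kap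
    (lfs T z1).card {z1} hmax (by rw [sum_singleton]; omega)
  have hz1I : z1 ∉ I := by
    intro hc
    exact (disjoint_left.mp hIz hc) (mem_singleton_self _)
  have memNL : ∀ t, t ∈ NL T ↔ dg T t ≠ 1 := by
    intro t
    rw [NL, mem_filter]
    simp
  have memLF : ∀ t, t ∈ LF T ↔ dg T t = 1 := by
    intro t
    rw [LF, mem_filter]
    simp
  have memlfs : ∀ c t, t ∈ lfs T c ↔ T.Adj c t ∧ dg T t = 1 := by
    intro c t
    rw [lfs, mem_filter]
    simp
  have hLfN : ∀ t ∈ Lf, t ∉ NL T := fun t ht hc => (memNL t).mp hc ((memLF t).mp (hLf ht))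
  have hLfI : ∀ t ∈ Lf, t ∉ I := fun t ht hc => hLfN t ht (hIN hc)
  have hLfz : ∀ t ∈ Lf, t ≠ z1 := fun t ht hc => hLfN t ht (hc ▸ hz1)
  obtain ⟨Y, hYs', hYc⟩ := exists_subset_card_eq hYs
  have hYQ : Y ⊆ Q := hYs'.trans (filter_subset _ _)
  have hYo : ∀ y ∈ Y, 2 * kap ≤ (nb G O y).card := by
    intro y hy
    exact (mem_filter.mp (hYs' hy)).2
  set Atyp := Q.filter (fun v => kap < (Y.filter (fun y => ¬ G.Adj v y)).card) with hAt
  have hAtc : Atyp.card ≤ 70 * h := by
    have g0 := atyp_card G Q Y (35 * h) kap hQ hYQ hYc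
    rw [← hAt] at g0
    omega
  -- the position of the root
  obtain ⟨v0, hv0⟩ : (((Q.filter (fun v => K ≤ (nb G Q v).card + kap)) \ Y) \ Atyp).Nonempty := by
    apply card_pos.mp
    have g1 := le_card_sdiff Y (Q.filter (fun v => K ≤ (nb G Q v).card + kap))
    have g2 := le_card_sdiff Atyp ((Q.filter (fun v => K ≤ (nb G Q v).card + kap)) \ Y)
    omega
  rw [mem_sdiff, mem_sdiff, mem_filter] at hv0
  obtain ⟨⟨⟨hv0Q, hv0d⟩, hv0Y⟩, hv0A⟩ := hv0
  obtain ⟨par, rk, hrk, hpar, hedge, hlt⟩ := exists_order T hT z1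
  have hparN : ∀ t ∈ NL T, t ≠ z1 → par t ∈ NL T := fun t ht htz => par_NL T hz1 par hpar ht htz
  have hparL : ∀ t ∈ Lf, par t ∈ I := fun t ht => hLI t ht _ (hpar t (hLfz t ht)).1
  have hparI : ∀ t ∈ I, par t ∉ I := by
    intro t ht hc
    have htz : t ≠ z1 := fun h => hz1I (h ▸ ht)
    exact hII t ht _ hc (hpar t htz).1
  set N0 := ((Q \ Y) \ Atyp).erase v0 with hN0
  have hN0Q : N0 ⊆ Q := (erase_subset _ _).trans (sdiff_subset.trans sdiff_subset)
  have hN0c : Q.card ≤ N0.card + 2 * kap + 70 * h + 1 := by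
    have g1 := le_card_sdiff Y Q
    have g2 := le_card_sdiff Atyp (Q \ Y)
    have g3 : v0 ∈ (Q \ Y) \ Atyp := mem_sdiff.mpr ⟨mem_sdiff.mpr ⟨hv0Q, hv0Y⟩, hv0A⟩
    have g4 := card_erase_add_one g3
    rw [← hN0] at g4
    omega
  set Reg : α → Finset V := fun t => if t = z1 then {v0} else if t ∈ Lf then O else
    if t ∈ I then Y else N0 with hReg
  set cl : α → ℕ := fun t => if t = z1 then 0 else if t ∈ Lf then 1 else
    if t ∈ I then 2 else 3 with hcl
  have R0 : Reg z1 = {v0} ∧ cl z1 = 0 := by simp [hReg, hcl]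
  have R1 : ∀ t ∈ Lf, Reg t = O ∧ cl t = 1 := by
    intro t ht
    simp [hReg, hcl, hLfz t ht, ht]
  have R2 : ∀ t ∈ I, Reg t = Y ∧ cl t = 2 := by
    intro t ht
    have k1 : t ≠ z1 := fun h => hz1I (h ▸ ht)
    have k2 : t ∉ Lf := fun h => hLfI t h ht
    simp [hReg, hcl, k1, k2, ht]
  have R3 : ∀ t, t ≠ z1 → t ∉ Lf → t ∉ I → Reg t = N0 ∧ cl t = 3 := by
    intro t k1 k2 k3
    simp [hReg, hcl, k1, k2, k3]
  have hquad : ∀ t, t = z1 ∨ t ∈ Lf ∨ t ∈ I ∨ (t ≠ z1 ∧ t ∉ Lf ∧ t ∉ I) := by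
    intro t
    tauto
  have hRQ : ∀ t, t ∉ Lf → Reg t ⊆ Q := by
    intro t ht
    rcases hquad t with h1 | h1 | h1 | ⟨h1, h2, h4⟩
    · rw [h1, R0.1, singleton_subset_iff]; exact hv0Q
    · exact absurd h1 ht
    · rw [(R2 t h1).1]; exact hYQ
    · rw [(R3 t h1 h2 h4).1]; exact hN0Q
  set PC := (NL T \ I).erase z1 with hPC
  have hPCm : ∀ t, t ∈ PC ↔ t ≠ z1 ∧ t ∈ NL T ∧ t ∉ I := by
    intro t
    rw [hPC, mem_erase, mem_sdiff]
  have hPCc : PC.card ≤ 1540 * h :=
    (card_le_card ((erase_subset _ _).trans sdiff_subset)).trans hNLc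
  have hsum : K / 2 + 140 * h ≤ ∑ t ∈ PC, (lfs T t).card := by
    have g1 : NL T ⊆ {z1} ∪ (I ∪ PC) := by
      intro t ht
      rw [mem_union, mem_union, hPCm, mem_singleton]
      by_cases k1 : t = z1
      · left; exact k1
      · by_cases k2 : t ∈ I
        · right; left; exact k2
        · right; right; exact ⟨k1, ht, k2⟩
    have g2 : ∑ t ∈ NL T, (lfs T t).card ≤ (lfs T z1).card +
        (∑ t ∈ I, (lfs T t).card + ∑ t ∈ PC, (lfs T t).card) := by
      refine (sum_le_sum_of_subset g1).trans ?_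
      rw [sum_union, sum_union, sum_singleton]
      · rw [disjoint_left]
        intro t ht ht'
        exact ((hPCm t).mp ht').2.2 ht
      · rw [disjoint_singleton_left, mem_union]
        rintro (k | k)
        · exact hz1I k
        · exact ((hPCm _).mp k).1 rfl
    rw [sum_lfs T hT h3] at g2
    omega
  refine zgen P T hT hcard G Q hQ (by omega) (lfs T z1).card hl1 hl1h hmax z1 hz1 Lf hLf v0 par rk
    hrk hpar hedge hlt Reg cl ?_ PC (fun t ht => ((hPCm t).mp ht).2.1)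
    (fun hc => ((hPCm _).mp hc).1 rfl) R0.1 (fun t ht => hRQ t (fun hc => hLfN t hc ht)) ?_ ?_ ?_ ?_
    hsum ?_ ?_
  · have dOQ : ∀ t, t ∉ Lf → Disjoint O (Reg t) := fun t ht =>
      (disjoint_of_subset_left (hRQ t ht) hQO).symm
    have dvY : Disjoint ({v0} : Finset V) Y := by
      rw [disjoint_singleton_left]; exact hv0Y
    have dvN : Disjoint ({v0} : Finset V) N0 := by
      rw [disjoint_singleton_left]; exact notMem_erase _ _
    have dYN : Disjoint Y N0 := by
      rw [disjoint_left]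
      intro x hx hx'
      exact (mem_sdiff.mp (mem_sdiff.mp (mem_of_mem_erase hx')).1).2 hx
    intro t _ t' _ hne
    by_cases hL : t ∈ Lf
    · by_cases hL' : t' ∈ Lf
      · rw [(R1 t hL).2, (R1 t' hL').2] at hne
        exact absurd rfl hne
      · rw [(R1 t hL).1]
        exact dOQ t' hL'
    · by_cases hL' : t' ∈ Lf
      · rw [(R1 t' hL').1]
        exact (dOQ t hL).symm
      · rcases hquad t with h1 | h1 | h1 | ⟨h1, h2, h4⟩ <;>
          rcases hquad t' with k1 | k1 | k1 | ⟨k1, k2, k4⟩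
        · rw [h1, k1] at hne; exact absurd rfl hne
        · exact absurd k1 hL'
        · rw [h1, R0.1, (R2 t' k1).1]; exact dvY
        · rw [h1, R0.1, (R3 t' k1 k2 k4).1]; exact dvN
        · exact absurd h1 hL
        · exact absurd h1 hL
        · exact absurd h1 hL
        · exact absurd h1 hL
        · rw [k1, R0.1, (R2 t h1).1]; exact dvY.symm
        · exact absurd k1 hL'
        · rw [(R2 t h1).2, (R2 t' k1).2] at hne; exact absurd rfl hne
        · rw [(R2 t h1).1, (R3 t' k1 k2 k4).1]; exact dYN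
        · rw [k1, R0.1, (R3 t h1 h2 h4).1]; exact dvN.symm
        · exact absurd k1 hL'
        · rw [(R2 t' k1).1, (R3 t h1 h2 h4).1]; exact dYN.symm
        · rw [(R3 t h1 h2 h4).2, (R3 t' k1 k2 k4).2] at hne; exact absurd rfl hne
  · intro t ht
    rw [(R1 t ht).1]
    exact hQO.symm
  · intro t' ht'
    rw [R0.2] at ht'
    rcases hquad t' with h1 | h1 | h1 | ⟨h1, h2, h4⟩
    · exact h1
    · rw [(R1 t' h1).2] at ht'; omega
    · rw [(R2 t' h1).2] at ht'; omega
    · rw [(R3 t' h1 h2 h4).2] at ht'; omega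
  · intro t ht htz y hy
    rw [mem_union] at ht
    rcases hquad t with h1 | h1 | h1 | ⟨h1, h2, h4⟩
    · exact absurd h1 htz
    · -- a leaf outside Q
      have hnPC : t ∉ PC := fun hc => hLfN t h1 ((hPCm t).mp hc).2.1
      rw [if_neg hnPC, (R1 t h1).1]
      rw [(R2 _ (hparL t h1)).1] at hy
      have g1 := hYo y hy
      have g2 := card_earlier (NL T ∪ Lf) Lf rk cl t h1 (by
        intro t' ht' _ hcc
        rw [(R1 t h1).2] at hcc
        rcases hquad t' with k1 | k1 | k1 | ⟨k1, k2, k4⟩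
        · rw [k1, R0.2] at hcc; omega
        · exact k1
        · rw [(R2 t' k1).2] at hcc; omega
        · rw [(R3 t' k1 k2 k4).2] at hcc; omega)
      have g3 : (O.filter (fun x => G.Adj y x)).card = (nb G O y).card := rfl
      omega
    · -- a neighbour of the leaves
      have hnPC : t ∉ PC := fun hc => ((hPCm t).mp hc).2.2 h1
      rw [if_neg hnPC, (R2 t h1).1]
      have hpN := hparN t (hIN h1) htz
      have hpI := hparI t h1
      have hpL : par t ∉ Lf := fun hc => hLfN _ hc hpN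
      have hyQ : y ∈ Q ∧ y ∉ Atyp := by
        rcases hquad (par t) with k1 | k1 | k1 | ⟨k1, k2, k4⟩
        · rw [k1, R0.1, mem_singleton] at hy
          rw [hy]
          exact ⟨hv0Q, hv0A⟩
        · exact absurd k1 hpL
        · exact absurd k1 hpI
        · rw [(R3 _ k1 k2 k4).1] at hy
          exact ⟨hN0Q hy, (mem_sdiff.mp (mem_of_mem_erase hy)).2⟩
      have g1 : (Y.filter (fun z => ¬ G.Adj y z)).card ≤ kap := by
        by_contra hc
        push Not at hc
        exact hyQ.2 (mem_filter.mpr ⟨hyQ.1, hc⟩)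
      have g2 := card_filter_add_card_filter_not (s := Y) (fun z => G.Adj y z)
      have g3 := card_earlier (NL T ∪ Lf) I rk cl t h1 (by
        intro t' ht' _ hcc
        rw [(R2 t h1).2] at hcc
        rcases hquad t' with k1 | k1 | k1 | ⟨k1, k2, k4⟩
        · rw [k1, R0.2] at hcc; omega
        · rw [(R1 t' k1).2] at hcc; omega
        · exact k1
        · rw [(R3 t' k1 k2 k4).2] at hcc; omega)
      omega
    · -- ordinary vertices
      have htN : t ∈ NL T := ht.resolve_right h2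
      have hPCt : t ∈ PC := (hPCm t).mpr ⟨h1, htN, h4⟩
      rw [if_pos hPCt, (R3 t h1 h2 h4).1]
      have hpN := hparN t htN htz
      have hyQ : y ∈ Q := hRQ _ (fun hc => hLfN _ hc hpN) hy
      have g1 := near_sub G Q N0 (35 * h) hQ hN0Q y hyQ
      have g3 := card_earlier (NL T ∪ Lf) PC rk cl t hPCt (by
        intro t' ht' _ hcc
        rw [(R3 t h1 h2 h4).2] at hcc
        rw [mem_union] at ht'
        rcases hquad t' with k1 | k1 | k1 | ⟨k1, k2, k4⟩
        · rw [k1, R0.2] at hcc; omega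
        · rw [(R1 t' k1).2] at hcc; omega
        · rw [(R2 t' k1).2] at hcc; omega
        · exact (hPCm t').mpr ⟨k1, ht'.resolve_right k2, k4⟩)
      omega
  · intro t ht
    rw [disjoint_left]
    intro x hx hx'
    rw [memlfs] at hx
    exact ((hPCm t).mp ht).2.2 (hLI x hx' t hx.1.symm)
  · have d1 : Disjoint Lf (lfs T z1) := by
      rw [disjoint_left]
      intro x hx hx'
      rw [memlfs] at hx'
      exact hz1I (hLI x hx z1 hx'.1.symm)
    rw [card_union_of_disjoint d1]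
    omega
  · omega

end Pool.Agent.H43.TC
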