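import Pool.Agent.H43.TC.ZGen
import Pool.Agent.H43.TC.SDeg

set_option autoImplicit false

/-
[H27 TC ZOver]  Type II trees embed in a near-clique with K + g vertices (1 <= g <= h) containing a
vertex v of degree >= K - 1 - 1000 g.

m = 35 h. l1 = max |lfs T c|, attained at z1 in NL, 1 <= l1 <= 1541 h. P0 = NL, L0 = lfs z1, Sl = LF \ lfs z1.
Root z1 at v. Con = NL \ {z1} (par t in NL). Regions: z1: {v} (class 0); NL \ {z1}: Q.erase v (class 1) = PC.
lam t = |lfs t|, lm = l1, g0 = 70 h. Let Nb = nn G Q v, so |Nb| = |Q| - 1 - |nb Q v| <= 35 h, and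
|Nb| <= 1001 g (hv). wt rho = (if rho in Nb then |Q| else 0) + |Nb| + 1, total = |Q||Nb| + (|Nb|+1)|Q| =
(2|Nb| + 1) |Q|.
rgp: earlier + 32 * 35 h <= 1540 h + 1120 h <= |Q| - 35 h - 1. Potential with B = {rho in Q: adjacent weight <= 70 h}:
 N = (sum_{PC} - 140 h)/l1 >= K/(2 l1) (sum_{PC} = |LF| - l1 >= K + 1 - 3081 h), so
 (|Nb| + 1) |B| 4^N <= (2|Nb|+1)|Q| => |B| 4^N <= 2 |Q| <= 4K (|Q| <= K + h <= 2K) => 4 |B| <= l1 (bad1);
 |Q| |B ∩ Nb| 4^N <= (2|Nb|+1)|Q| => |B ∩ Nb| 4^N <= 2 |Nb| + 1, |Nb| <= 1002 g => |B ∩ Nb| + 1 <= g (bad3;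
 N >= K/(2 l1) >= K/(2 * 1541 h)).
finishB (z0 := z1): Bd ⊆ B (slots at t in PC are all of lfs t). |Q \ phi(NL)| - |Sl| = |Q| - |NL| - (K + 1 - |NL| - l1)
 = g - 1 + l1 >= |Bd|. Cv = (Nb \ phi(NL)) \ Bd (a subset of (Q \ phi(NL)) \ Bd), |Cv| <= 35 h.
 S' = nb G Q v; Cv \ S' = Cv. |phi(NL) ∩ S'| <= |NL| - 1 - |phi(NL) ∩ Nb|.
 l1 + |phi(NL) ∩ S'| + (|Sl| - |Cv|) <= K - (|phi(NL) ∩ Nb| + |Cv|), and |phi(NL) ∩ Nb| + |Cv| >= |Nb| - |B ∩ Nb|
 >= |Nb| - (g - 1) = K - |nb Q v| (if |nb Q v| >= K the claim is trivial: everything is <= K); |Cv| <= |Sl|.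
-/

namespace Pool.Agent.H43.TC

open Finset Classical
open Pool.Agent.H28.TreeClique

variable {V α : Type*} [Fintype α]

theorem over_case {K r L q h : ℕ} (P : Par K r L q h) (T : SimpleGraph α) (hT : T.IsTree)
    (hcard : Fintype.card α = K + 1) (hII : TypeII T (1540 * h) (1541 * h)) (G : SimpleGraph V)
    (Q : Finset V) (hQ : Near G Q (35 * h)) (hup : Q.card ≤ K + h) (hlow : K + 1 ≤ Q.card)
    (v : V) (hvQ : v ∈ Q) (hv : K ≤ (nb G Q v).card + 1 + 1000 * (Q.card - K)) : Emb T G := by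
  obtain ⟨-, -, -, -, hbig, hh3, -⟩ := par_facts P
  obtain ⟨hNLc, hlfs⟩ := hII
  have h3c : 3 ≤ Fintype.card α := by omega
  obtain ⟨pi, hpi⟩ := leaf_nbr T hT h3c
  have hNLF := card_NL_LF T
  rw [hcard] at hNLF
  have : Nonempty V := ⟨v⟩
  obtain ⟨z1, hz1, hl1, hmax⟩ := exists_z1 T hT h3c (card_pos.mp (by omega))
  obtain ⟨par, rk, hrk, hpar1, hpar2, hrk2⟩ := exists_order T hT z1
  have hsumL := sum_lfs T hT h3c
  have hz1d : dg T z1 ≠ 1 := by
    rw [NL, mem_filter] at hz1
    exact hz1.2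
  have hmax' := hlfs z1
  -- the non-neighbours of v
  set Nb := nn G Q v with hNb
  have hNbQ : Nb ⊆ Q := filter_subset _ _
  have hNbc := nb_nn_card G Q v hvQ
  rw [← hNb] at hNbc
  have hNb35 : Nb.card + 1 ≤ 35 * h := by
    have g1 : insert v Nb ⊆ Q.filter (fun x => ¬ G.Adj v x) := by
      intro x hx
      rw [mem_insert] at hx
      rw [mem_filter]
      rcases hx with rfl | hx
      · exact ⟨hvQ, fun h => h.ne rfl⟩
      · rw [hNb, nn, mem_filter] at hx
        exact ⟨hx.1, hx.2.2⟩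
    have g2 : v ∉ Nb := by
      rw [hNb, nn, mem_filter]
      exact fun h => h.2.1 rfl
    have g3 := card_le_card g1
    rw [card_insert_of_notMem g2] at g3
    exact g3.trans (hQ v hvQ)
  -- regions
  set Reg : α → Finset V := fun t => if t = z1 then {v} else Q.erase v with hReg
  set cl : α → ℕ := fun t => if t = z1 then 0 else 1 with hcl
  have R0 : Reg z1 = {v} := by simp [hReg]
  have R1 : ∀ t, t ≠ z1 → Reg t = Q.erase v := by
    intro t ht
    simp [hReg, ht]
  have c0 : cl z1 = 0 := by simp [hcl]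
  have c1 : ∀ t, t ≠ z1 → cl t = 1 := by
    intro t ht
    simp [hcl, ht]
  have hRQ : ∀ t, Reg t ⊆ Q := by
    intro t
    by_cases h1 : t = z1
    · rw [h1, R0, singleton_subset_iff]
      exact hvQ
    · rw [R1 t h1]
      exact erase_subset _ _
  set PC := (NL T).erase z1 with hPC
  have hPCc : PC.card + 1 = (NL T).card := card_erase_add_one hz1
  obtain ⟨φ, i1, i2, i3, i4⟩ := rgp G (NL T) rk hrk.injOn par PC
    (by
      intro t ht
      rw [hPC, mem_erase] at ht
      refine ⟨ht.2, par_NL T hz1 par hpar1 ht.2 ht.1, hrk2 _ _ ?_⟩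
      have := (hpar1 t ht.1).2
      omega)
    Reg cl
    (by
      intro t _ t' _ hne
      have d : Disjoint ({v} : Finset V) (Q.erase v) := by
        rw [disjoint_singleton_left]
        exact notMem_erase _ _
      by_cases h1 : t = z1 <;> by_cases h2 : t' = z1
      · rw [h1, h2] at hne
        exact absurd rfl hne
      · rw [h1, R0, R1 t' h2]
        exact d
      · rw [h2, R0, R1 t h1]
        exact d.symm
      · rw [c1 t h1, c1 t' h2] at hne
        exact absurd rfl hne)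
    PC (erase_subset _ _) Q (35 * h) (by omega) hQ
    (fun t _ => hRQ t)
    (by
      intro t ht y' hy'
      have ht' := ht
      rw [hPC, mem_erase] at ht'
      rw [if_pos ht, R1 t ht'.1]
      have h2 := near_adj_erase (z := v) hQ (hRQ _ hy')
      have h4 := card_earlier (NL T) PC rk cl t ht (by
        intro t' ht' _ h4
        rw [c1 t (ne_of_mem_erase ht)] at h4
        rw [hPC, mem_erase]
        refine ⟨fun h => ?_, ht'⟩
        rw [h, c0] at h4
        omega)
      omega)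
    (by
      intro t ht htC
      have h1 : t = z1 := by
        by_contra h
        exact htC (mem_erase.mpr ⟨h, ht⟩)
      rw [if_neg htC, h1, R0, card_singleton]
      have h2 := card_earlier (NL T) {z1} rk cl z1 (mem_singleton_self _) (by
        intro t' _ _ h4
        rw [mem_singleton]
        by_contra h5
        rw [c0, c1 t' h5] at h4
        omega)
      rw [card_singleton] at h2
      exact h2)
    (fun t => (lfs T t).card) (lfs T z1).card hl1 (fun t _ => hmax t)
    (fun ρ => (if ρ ∈ Nb then Q.card else 0) + (Nb.card + 1)) (70 * h)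
  set Bg := Q.filter (fun ρ => ∑ t ∈ PC.filter (fun t => G.Adj (φ t) ρ),
    (lfs T t).card ≤ 70 * h) with hBg
  set N := (∑ t ∈ PC, (lfs T t).card - 2 * (70 * h)) / (lfs T z1).card with hN
  have hwt : ∀ X : Finset V, ∑ ρ ∈ X, ((if ρ ∈ Nb then Q.card else 0) + (Nb.card + 1)) =
      (X ∩ Nb).card * Q.card + X.card * (Nb.card + 1) := by
    intro X
    rw [sum_add_distrib, sum_const, smul_eq_mul, ← sum_filter, sum_const, smul_eq_mul,
      filter_mem_eq_inter]
  rw [hwt, hwt, inter_eq_right.mpr hNbQ] at i4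
  have hsumPC : K / 2 + 140 * h ≤ ∑ t ∈ PC, (lfs T t).card := by
    have h1 := sum_erase_add (NL T) (fun t => (lfs T t).card) hz1
    rw [← hPC] at h1
    omega
  have hN1 : K / (2 * (lfs T z1).card) ≤ N := by
    rw [hN, ← Nat.div_div_eq_div_mul]
    apply Nat.div_le_div_right
    omega
  have hN2 : K / (2 * (1541 * h)) ≤ N := by
    refine le_trans (Nat.div_le_div_left ?_ (by omega)) hN1
    omega
  have hBgc : 4 * Bg.card ≤ (lfs T z1).card := by
    refine bad1 P (lfs T z1).card N Bg.card hl1 hmax' hN1 ?_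
    have g1 : (Bg.card * (Nb.card + 1)) * 4 ^ N ≤ (2 * Q.card) * (Nb.card + 1) := by
      calc (Bg.card * (Nb.card + 1)) * 4 ^ N
          ≤ ((Bg ∩ Nb).card * Q.card + Bg.card * (Nb.card + 1)) * 4 ^ N :=
            Nat.mul_le_mul_right _ (Nat.le_add_left _ _)
        _ ≤ Nb.card * Q.card + Q.card * (Nb.card + 1) := i4
        _ ≤ (2 * Q.card) * (Nb.card + 1) := by nlinarith
    have g2 : Bg.card * 4 ^ N ≤ 2 * Q.card := by
      apply Nat.le_of_mul_le_mul_right _ (Nat.succ_pos Nb.card)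
      calc Bg.card * 4 ^ N * (Nb.card + 1) = (Bg.card * (Nb.card + 1)) * 4 ^ N := by ring
        _ ≤ (2 * Q.card) * (Nb.card + 1) := g1
    omega
  have hBN : (Bg ∩ Nb).card + 1 ≤ Q.card - K := by
    refine bad3 P N (Bg ∩ Nb).card Nb.card (Q.card - K) hN2 ?_ (by omega) (by omega)
    apply Nat.le_of_mul_le_mul_right _ (show 0 < Q.card by omega)
    calc (Bg ∩ Nb).card * 4 ^ N * Q.card = ((Bg ∩ Nb).card * Q.card) * 4 ^ N := by ring
      _ ≤ ((Bg ∩ Nb).card * Q.card + Bg.card * (Nb.card + 1)) * 4 ^ N :=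
          Nat.mul_le_mul_right _ (Nat.le_add_right _ _)
      _ ≤ Nb.card * Q.card + Q.card * (Nb.card + 1) := i4
      _ = (2 * Nb.card + 1) * Q.card := by ring
  -- the last step
  set Sl := LF T \ lfs T z1 with hSl
  have hLfl : lfs T z1 ⊆ LF T := by
    intro x hx
    rw [lfs, mem_filter] at hx
    rw [LF, mem_filter]
    exact ⟨mem_univ _, hx.2.2⟩
  have hSlc : Sl.card + (lfs T z1).card = (LF T).card := card_sdiff_add_card_eq_card hLfl
  have hφz1 : φ z1 = v := by
    have := i2 z1 hz1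
    rw [R0, mem_singleton] at this
    exact this
  have hSlm : ∀ l ∈ Sl, dg T l = 1 ∧ ¬ T.Adj z1 l := by
    intro l hl
    rw [hSl, mem_sdiff, LF, mem_filter] at hl
    refine ⟨hl.1.2, fun h => hl.2 ?_⟩
    rw [lfs, mem_filter]
    exact ⟨mem_univ _, h, hl.1.2⟩
  have hSlpi : ∀ l ∈ Sl, pi l ∈ NL T := by
    intro l hl
    obtain ⟨l1', l3⟩ := hSlm l hl
    rw [NL, mem_filter]
    exact ⟨mem_univ _, (hpi l l1').2.2⟩
  set Bd := (Q \ (NL T).image φ).filter
    (fun ρ => (Sl.filter (fun l => G.Adj (φ (pi l)) ρ)).card ≤ 2 * (35 * h)) with hBd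
  have hBdB : Bd ⊆ Bg := by
    intro ρ hρ
    rw [hBd, mem_filter, mem_sdiff] at hρ
    rw [hBg, mem_filter]
    refine ⟨hρ.1.1, ?_⟩
    refine le_trans (sum_lfs_le T hT h3c _
      (Sl.filter (fun l => G.Adj (φ (pi l)) ρ)) ?_) (by omega)
    intro t ht x hx
    rw [mem_filter] at ht
    rw [lfs, mem_filter] at hx
    have hpx : t = pi x := (hpi x hx.2.2).2.1 t hx.2.1.symm
    rw [mem_filter, hSl, mem_sdiff, LF, mem_filter]
    refine ⟨⟨⟨mem_univ _, hx.2.2⟩, fun h => ?_⟩, ?_⟩
    · rw [lfs, mem_filter] at h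
      apply ne_of_mem_erase ht.1
      rw [hpx, (hpi x hx.2.2).2.1 z1 h.2.1.symm]
    · rw [← hpx]
      exact ht.2
  have hIm : (NL T).image φ ⊆ Q := by
    intro x hx
    rw [mem_image] at hx
    obtain ⟨t, ht, rfl⟩ := hx
    exact hRQ t (i2 t ht)
  have hImc : ((NL T).image φ).card = (NL T).card := card_image_of_injOn i1
  set Cv := (Nb \ (NL T).image φ) \ Bd with hCv
  have hCvN : Cv ⊆ Nb := sdiff_subset.trans sdiff_subset
  refine finishB T G (NL T) Sl (lfs T z1) ?_ ?_ ?_ ?_ z1 hz1 φ Q (35 * h) hQ pi ?_ ?_ i1 ?_ Bd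
    hBd ?_ Cv ?_ ?_ (nb G Q v) ?_ (Or.inr ?_)
  · intro t
    by_cases g1 : dg T t = 1
    · by_cases g4 : t ∈ lfs T z1
      · right; right
        exact g4
      · right; left
        rw [hSl, mem_sdiff, LF, mem_filter]
        exact ⟨⟨mem_univ _, g1⟩, g4⟩
    · left
      rw [NL, mem_filter]
      exact ⟨mem_univ _, g1⟩
  · rw [disjoint_left]
    intro t ht ht'
    obtain ⟨l1', l3⟩ := hSlm t ht'
    rw [NL, mem_filter] at ht
    exact ht.2 l1'
  · rw [disjoint_left]
    intro t ht ht'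
    rw [lfs, mem_filter] at ht'
    rw [NL, mem_filter] at ht
    exact ht.2 ht'.2.2
  · rw [disjoint_left]
    intro t ht ht'
    rw [lfs, mem_filter] at ht'
    exact (hSlm t ht).2 ht'.2.1
  · intro l hl
    obtain ⟨p1, p2, p3⟩ := hpi l (hSlm l hl).1
    have g1 := hSlpi l hl
    exact ⟨p1, p2, g1, hRQ _ (i2 _ g1)⟩
  · intro l hl b hb
    rw [lfs, mem_filter] at hl
    rw [(hpi l hl.2.2).2.1 b hb, (hpi l hl.2.2).2.1 z1 hl.2.1.symm]
  · intro x hx y hy hxy
    rcases hpar2 x y hxy with ⟨g1, g2, -⟩ | ⟨g1, g2, -⟩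
    · have := i3 x (mem_erase.mpr ⟨g2, hx⟩)
      rw [← g1] at this
      exact this.symm
    · have := i3 y (mem_erase.mpr ⟨g2, hy⟩)
      rw [← g1] at this
      exact this
  · have g2 := card_le_card hBdB
    have g3 := card_sdiff_add_card_eq_card hIm
    omega
  · intro x hx
    rw [hCv, mem_sdiff, mem_sdiff] at hx
    rw [mem_sdiff, mem_sdiff]
    exact ⟨⟨hNbQ hx.1.1, hx.1.2⟩, hx.2⟩
  · have := card_le_card hCvN
    omega
  · intro x hx
    rw [hφz1]
    unfold nb at hx
    exact (mem_filter.mp hx).2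
  · have g0 : Cv \ nb G Q v = Cv := by
      apply Finset.sdiff_eq_self_of_disjoint
      rw [disjoint_left]
      intro x hx hx'
      have h1 := hCvN hx
      rw [hNb, nn, mem_filter] at h1
      rw [nb, mem_filter] at hx'
      exact h1.2.2 hx'.2
    rw [g0]
    have g1 : ((NL T).image φ ∩ nb G Q v).card + ((NL T).image φ ∩ Nb).card + 1 ≤
        (NL T).card := by
      have d1 : Disjoint ((NL T).image φ ∩ nb G Q v) ((NL T).image φ ∩ Nb) := by
        rw [disjoint_left]
        intro x hx hx'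
        rw [mem_inter, nb, mem_filter] at hx
        rw [mem_inter, hNb, nn, mem_filter] at hx'
        exact hx'.2.2.2 hx.2.2
      rw [← card_union_of_disjoint d1]
      have d2 : v ∉ (NL T).image φ ∩ nb G Q v ∪ (NL T).image φ ∩ Nb := by
        intro h
        rw [mem_union, mem_inter, mem_inter, nb, hNb, nn, mem_filter, mem_filter] at h
        rcases h with h | h
        · exact h.2.2.ne rfl
        · exact h.2.2.1 rfl
      rw [← card_insert_of_notMem d2, ← hImc]
      apply card_le_card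
      intro x hx
      rw [mem_insert, mem_union, mem_inter, mem_inter] at hx
      rcases hx with rfl | hx | hx
      · rw [mem_image]
        exact ⟨z1, hz1, hφz1⟩
      · exact hx.1
      · exact hx.1
    have g2 : Nb.card ≤ ((NL T).image φ ∩ Nb).card + (Cv.card + (Bg ∩ Nb).card) := by
      have g3 : Nb ⊆ ((NL T).image φ ∩ Nb) ∪ (Cv ∪ (Bg ∩ Nb)) := by
        intro x hx
        rw [mem_union, mem_union, mem_inter, mem_inter, hCv, mem_sdiff, mem_sdiff]
        by_cases h1 : x ∈ (NL T).image φ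
        · left; exact ⟨h1, hx⟩
        · by_cases h2 : x ∈ Bd
          · right; right; exact ⟨hBdB h2, hx⟩
          · right; left; exact ⟨⟨hx, h1⟩, h2⟩
      refine (card_le_card g3).trans ((card_union_le _ _).trans ?_)
      exact Nat.add_le_add_left (card_union_le _ _) _
    have g4 := card_le_card hCvN
    omega

end Pool.Agent.H43.TC
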